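import Mathlib
import Pool.Agent.H34x.SL.Main

/-!
# The reduction along maps of bounded degree
-/

set_option autoImplicit false

namespace Pool.Agent.H34x.PL

open NumberField IsDedekindDomain Height
open Pool.Agent.H34x.SL

/-- the logarithm of the conductor of the triple `(x, 1 - x, -1)` -/
noncomputable def tot {K : Type} [Field K] [NumberField K] (x : K) : ℝ := cn x + cn (1 - x) + cn x⁻¹

theorem deduce (F : ∀ (K : Type) [Field K], Prop)
    (T : ∀ (K : Type) [Field K] [NumberField K], K → K → K → Prop) (Dmax : ℕ) (c : ℝ)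
    (hc : 0 ≤ c)
    (hmap : ∀ (K : Type) [Field K] [NumberField K], F K → ∀ x : K, x ≠ 0 → x ≠ 1 →
      hh x ≤ c ∨ ∃ D : ℕ, 1 ≤ D ∧ D ≤ Dmax ∧ ∃ y : K, y ≠ 0 ∧ y ≠ 1 ∧
        (D : ℝ) * hh x ≤ hh y + c ∧ tot y ≤ tot x + ((D : ℝ) - 1) * hh x + c ∧
        T K (-y) (y - 1) 1)
    (H : ∀ ε : ℝ, 0 < ε → Holds F T (1 + ε)) :
    ∀ ε : ℝ, 0 < ε → Holds F (fun _ _ _ _ _ _ => True) (1 + ε) := by
  intro ε hε
  set η : ℝ := ε / (1 + (1 + ε) * Dmax) with hη
  have hden : 0 < 1 + (1 + ε) * (Dmax : ℝ) := by positivity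
  have hη0 : 0 < η := div_pos hε hden
  have hηk : η * (1 + (1 + ε) * Dmax) = ε := div_mul_cancel₀ _ hden.ne'
  obtain ⟨C, hC, hH⟩ := H η hη0
  set E : ℝ := max 0 (Real.log C) + c + (1 + η) * c with hE
  have hE0 : 0 ≤ E := by
    have := le_max_left 0 (Real.log C)
    positivity
  refine ⟨Real.exp ((1 + ε) * E + c + Real.log 2), Real.exp_pos _, ?_⟩
  intro K _ _ hK a b e ha hb he habe _
  obtain ⟨hx0, hx1, p1, p2, p3⟩ := logs ha hb he habe
  have hN := log_conductor ha hb he habe
  have hNone := one_le_conductor ha hb he habe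
  have hδ := one_le_rootDisc K
  have hHl := log_height_le he habe
  set x : K := -a / e with hx
  have hδN : 0 < rootDisc K * conductor a b e := by positivity
  have hlogδ : 0 ≤ Real.log (rootDisc K) := Real.log_nonneg hδ
  have hlogN : 0 ≤ Real.log (conductor a b e) := Real.log_nonneg hNone
  have hgoal : ∀ t : ℝ, Real.log (height a b e) ≤
      t + (1 + ε) * (Real.log (rootDisc K) + Real.log (conductor a b e)) →
      height a b e ≤ Real.exp t * (rootDisc K * conductor a b e) ^ (1 + ε) := by
    intro t ht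
    apply le_of_log (height_pos _ _ _) (mul_pos (Real.exp_pos _) (Real.rpow_pos_of_pos hδN _))
    rw [Real.log_mul (Real.exp_pos _).ne' (Real.rpow_pos_of_pos hδN _).ne', Real.log_exp,
      Real.log_rpow hδN, Real.log_mul (by linarith) (by linarith)]
    exact ht
  apply hgoal
  have hright : 0 ≤ (1 + ε) * (Real.log (rootDisc K) + Real.log (conductor a b e)) := by positivity
  have l2 : 0 < Real.log 2 := Real.log_pos (by norm_num)
  have hEE : 0 ≤ (1 + ε) * E := by positivity
  rcases hmap K hK x hx0 hx1 with h | ⟨D, hD1, hD, y, hy0, hy1, g0, g1, hT⟩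
  · linarith
  · have ha' : -y ≠ 0 := neg_ne_zero.2 hy0
    have hb' : y - 1 ≠ 0 := sub_ne_zero.2 hy1
    have habc' : -y + (y - 1) + 1 = 0 := by ring
    have hyx : -(-y) / (1 : K) = y := by rw [neg_neg, div_one]
    have hN' := log_conductor ha' hb' one_ne_zero habc'
    have hNone' := one_le_conductor ha' hb' one_ne_zero habc'
    have hH1 : hh y ≤ Real.log (height (-y) (y - 1) 1) := by
      have := hh_le_log_height (a := -y) (b := y - 1) (c := (1 : K))
      rwa [hyx] at this
    rw [hyx] at hN'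
    have key := hH K hK (-y) (y - 1) 1 ha' hb' one_ne_zero habc' hT
    have hδN' : 0 < rootDisc K * conductor (-y) (y - 1) 1 := by positivity
    have key2 := Real.log_le_log (height_pos _ _ _) key
    rw [Real.log_mul hC.ne' (Real.rpow_pos_of_pos hδN' _).ne', Real.log_rpow hδN',
      Real.log_mul (by linarith) (by linarith), hN'] at key2
    have hCle : Real.log C ≤ max 0 (Real.log C) := le_max_right _ _
    have hhx := hh_nonneg x
    set h := hh x with hhdef
    set S := Real.log (rootDisc K) + Real.log (conductor a b e) with hS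
    have htx : tot x = Real.log (conductor a b e) := by rw [hN]; rfl
    have hty : tot y = cn y + cn (1 - y) + cn y⁻¹ := rfl
    have hDm : (D : ℝ) ≤ Dmax := by exact_mod_cast hD
    have hD1' : (1 : ℝ) ≤ D := by exact_mod_cast hD1
    have e1 : (D : ℝ) * h - c ≤ Real.log C + (1 + η) * (Real.log (rootDisc K) + tot y) := by
      rw [hty]
      linarith
    have e2 : (1 + η) * tot y ≤ (1 + η) * (tot x + ((D : ℝ) - 1) * h + c) :=
      mul_le_mul_of_nonneg_left g1 (by linarith)
    have e3 : ((D : ℝ) - (1 + η) * (D - 1)) * h ≤ (1 + η) * S + E := by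
      rw [hS, hE]
      rw [htx] at e2
      nlinarith
    -- the factor
    have hf : 1 + η ≤ (1 + ε) * ((D : ℝ) - (1 + η) * (D - 1)) := by
      have : (D : ℝ) - (1 + η) * (D - 1) = 1 - η * (D - 1) := by ring
      rw [this]
      have h1 : η * (1 + (1 + ε) * (D - 1)) ≤ ε := by
        rw [← hηk]
        apply mul_le_mul_of_nonneg_left _ hη0.le
        nlinarith
      nlinarith
    set f := (D : ℝ) - (1 + η) * (D - 1) with hfdef
    have hfpos : 0 < f := by
      by_contra hcon
      push Not at hcon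
      nlinarith
    have hS0 : 0 ≤ S := by positivity
    have e4 : h ≤ (1 + ε) * S + (1 + ε) * E := by
      have hf1 : f ≤ 1 + 0 ∨ True := Or.inr trivial
      -- f * h ≤ (1 + η) S + E ≤ f ((1+ε) S) + ...
      have h5 : f * h ≤ f * ((1 + ε) * S) + E := by nlinarith
      have h6 : 1 ≤ (1 + ε) * f := by linarith
      by_contra hcon
      push Not at hcon
      nlinarith [mul_lt_mul_of_pos_left hcon hfpos, mul_nonneg hE0 (sub_nonneg.2 h6)]
    linarith

end Pool.Agent.H34x.PL
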