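import Mathlib
import Pool.Agent.H34x.PL.Ded

/-!
# The power maps and the `j`-map
-/

set_option autoImplicit false

namespace Pool.Agent.H34x.PL

open Polynomial NumberField IsDedekindDomain Height
open Pool.Agent.H34x.SL

section

variable {K : Type} [Field K] [NumberField K]

theorem cn_one : cn (1 : K) = 0 := by
  unfold cn
  rw [finsum_eq_zero_of_forall_eq_zero, zero_div]
  intro v
  rw [map_one, if_neg (lt_irrefl _)]

theorem cn_mono {x y : K} (hx : x ≠ 0) (hy : y ≠ 0)
    (h : ∀ v : HeightOneSpectrum (𝓞 K), FinitePlace.mk v x < 1 → FinitePlace.mk v y < 1) :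
    cn x ≤ cn y := by
  have := cn_sub hx hy (one_ne_zero (α := K)) (fun v hv => Or.inl (h v hv))
  rwa [cn_one, add_zero] at this

theorem hh_pow (x : K) (m : ℕ) : hh (x ^ m) = m * hh x := by
  unfold hh
  rw [logHeight₁_pow, mul_div_assoc]

theorem hh_zero : hh (0 : K) = 0 := by simp [hh]

theorem hh_one : hh (1 : K) = 0 := by simp [hh]

/-- upper bound for the height of a quotient of values -/
theorem hh_quot_le (F B : ℤ[X]) {N : ℕ} (hF : F.natDegree ≤ N) (hB : B.natDegree ≤ N) (x : K) :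
    hh (aeval x F / aeval x B) ≤ N * hh x + Real.log (L1 F + L1 B) := by
  have hLF := one_le_L1 F
  have hLB := one_le_L1 B
  by_cases h0 : (![aeval x F, aeval x B] : Fin 2 → K) = 0
  · have e1 : aeval x F = 0 := by simpa using congrFun h0 0
    rw [e1, zero_div, hh_zero]
    have := hh_nonneg x
    have h2 : 0 ≤ Real.log (L1 F + L1 B) := Real.log_nonneg (by linarith)
    positivity
  have hy0 : (![x ^ N, 1] : Fin 2 → K) ≠ 0 := by
    intro h
    exact one_ne_zero (by simpa using congrFun h 1 : (1 : K) = 0)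
  have hpow : ∀ (t : ℝ), 0 ≤ t → max (t ^ N) 1 = (max 1 t) ^ N := by
    intro t ht
    rcases le_or_gt t 1 with h | h
    · rw [max_eq_right (pow_le_one₀ ht h), max_eq_left h, one_pow]
    · rw [max_eq_left (one_le_pow₀ h.le), max_eq_right h.le]
  have key := mulHeight_le h0 hy0 (c := L1 F + L1 B) (by linarith) (fun w => by
      rw [sup_two (fun z => w z), sup_two (fun z => w z), map_pow, map_one,
        hpow _ (apply_nonneg w x)]
      have h1 : 1 ≤ (max 1 (w x)) ^ N := one_le_pow₀ (le_max_left _ _)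
      have h2 : w (aeval x F) ≤ L1 F * (max 1 (w x)) ^ N := aeval_le w.1 F hF x
      have h3 : w (aeval x B) ≤ L1 B * (max 1 (w x)) ^ N := aeval_le w.1 B hB x
      refine max_le (h2.trans ?_) (h3.trans ?_) <;> nlinarith) (fun v => by
      rw [sup_two (fun z => v z), sup_two (fun z => v z), map_pow, map_one,
        hpow _ (apply_nonneg v x)]
      exact max_le (na_aeval_le (na v) F hF x) (na_aeval_le (na v) B hB x))
  rw [← mulHeight₁_div_eq_mulHeight, ← mulHeight₁_eq_mulHeight, mulHeight₁_pow] at key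
  have h5 := log_le_of (K := K) (mulHeight₁_pos _) (by linarith)
    (pow_pos (mulHeight₁_pos x) N) key
  rw [Real.log_pow] at h5
  unfold hh
  rw [logHeight₁_eq_log_mulHeight₁, logHeight₁_eq_log_mulHeight₁, ← mul_div_assoc]
  exact h5

/-- the power map -/
theorem pow_step (x : K) (hx : x ≠ 0) {m : ℕ} (hm : 1 ≤ m) (hxm : x ^ m ≠ 1) :
    tot (x ^ m) ≤ tot x + ((m : ℝ) - 1) * hh x +
      Real.log (L1 (∑ i ∈ Finset.range m, (X : ℤ[X]) ^ i)) := by
  set Φ : ℤ[X] := ∑ i ∈ Finset.range m, (X : ℤ[X]) ^ i with hΦ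
  have hΦd : Φ.natDegree ≤ m - 1 := by
    rw [hΦ]
    apply natDegree_sum_le_of_forall_le
    intro i hi
    rw [natDegree_X_pow]
    have := Finset.mem_range.1 hi
    omega
  have eΦ : aeval x Φ = ∑ i ∈ Finset.range m, x ^ i := by
    rw [hΦ, map_sum]
    apply Finset.sum_congr rfl
    intro i _
    rw [map_pow, aeval_X]
  have e1 : 1 - x ^ m = (1 - x) * aeval x Φ := by
    rw [eΦ, mul_comm]
    have := geom_sum_mul x m
    linear_combination this
  have hx1 : 1 - x ≠ 0 := by
    intro h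
    rw [h, zero_mul, sub_eq_zero] at e1
    exact hxm e1.symm
  have hΦx : aeval x Φ ≠ 0 := by
    intro h
    rw [h, mul_zero, sub_eq_zero] at e1
    exact hxm e1.symm
  have h1m : 1 - x ^ m ≠ 0 := by
    rw [e1]
    exact mul_ne_zero hx1 hΦx
  have g1 : cn (x ^ m) ≤ cn x := by
    apply cn_mono (pow_ne_zero _ hx) hx
    intro v hv
    by_contra hcon
    push Not at hcon
    rw [map_pow] at hv
    have := one_le_pow₀ hcon (n := m)
    linarith
  have g2 : cn (1 - x ^ m) ≤ cn (1 - x) + cn (aeval x Φ) := by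
    apply cn_sub h1m hx1 hΦx
    intro v hv
    by_contra hcon
    push Not at hcon
    rw [e1, map_mul] at hv
    have := one_le_mul_of_one_le_of_one_le hcon.1 hcon.2
    linarith
  have g3 : cn (x ^ m)⁻¹ ≤ cn x⁻¹ := by
    apply cn_mono (inv_ne_zero (pow_ne_zero _ hx)) (inv_ne_zero hx)
    intro v hv
    by_contra hcon
    push Not at hcon
    rw [← inv_pow, map_pow] at hv
    have := one_le_pow₀ hcon (n := m)
    linarith
  have g4 := cn_le_hh hΦx
  have g5 := hh_upper Φ hΦd x
  have e2 : ((m - 1 : ℕ) : ℝ) = (m : ℝ) - 1 := by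
    push_cast [Nat.cast_sub hm]
    ring
  rw [e2] at g5
  unfold tot
  linarith

/-- the `j`-map -/
noncomputable def J (x : K) : K := 27 * x ^ 2 * (1 - x) ^ 2 / (4 * (x ^ 2 - x + 1) ^ 3)

end

/-- its numerator and denominator -/
noncomputable def JF : ℤ[X] := C 27 * X ^ 2 * (1 - X) ^ 2

noncomputable def JB : ℤ[X] := C 4 * (X ^ 2 - X + 1) ^ 3

noncomputable def JG : ℤ[X] := (X + 1) * (X - C 2) * (C 2 * X - 1)

noncomputable def JP : ℤ[X] := X ^ 2 - X + 1

theorem JB_deg : JB.natDegree = 6 := by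
  unfold JB
  compute_degree!

theorem JF_deg : JF.natDegree ≤ 6 := by
  unfold JF
  compute_degree
  norm_num

theorem JG_deg : JG.natDegree ≤ 3 := by
  unfold JG
  compute_degree

theorem JP_deg : JP.natDegree ≤ 2 := by
  unfold JP
  compute_degree

theorem JB_ne : JB ≠ 0 := by
  intro h
  have := JB_deg
  rw [h] at this
  simp at this

theorem J_cop : IsCoprime (JB.map (Int.castRingHom ℚ)) (JF.map (Int.castRingHom ℚ)) := by
  rw [isCoprime_iff_aeval_ne_zero_of_isAlgClosed (k := ℚ) ℂ]
  intro z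
  by_contra h
  push Not at h
  obtain ⟨h1, h2⟩ := h
  have key : ∀ P : ℤ[X], aeval z (P.map (Int.castRingHom ℚ)) = aeval z P := by
    intro P
    rw [aeval_def, eval₂_map, aeval_def]
    congr 1
  rw [key] at h1 h2
  unfold JB at h1
  unfold JF at h2
  simp only [map_mul, map_pow, map_sub, map_add, map_one, aeval_X, aeval_C] at h1 h2
  have h27 : (algebraMap ℤ ℂ) 27 ≠ 0 := by simp
  have h4 : (algebraMap ℤ ℂ) 4 ≠ 0 := by simp
  have h3 : z ^ 2 - z + 1 = 0 := by
    rcases mul_eq_zero.1 h1 with h | h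
    · exact absurd h h4
    · exact eq_zero_of_pow_eq_zero h
  rcases mul_eq_zero.1 h2 with h | h
  · rcases mul_eq_zero.1 h with h | h
    · exact h27 h
    · have hz : z = 0 := eq_zero_of_pow_eq_zero h
      rw [hz] at h3
      norm_num at h3
  · have hz : 1 - z = 0 := eq_zero_of_pow_eq_zero h
    have hz' : z = 1 := (sub_eq_zero.1 hz).symm
    rw [hz'] at h3
    norm_num at h3

section

variable {K : Type} [Field K] [NumberField K]

theorem JF_eval (x : K) : aeval x JF = 27 * x ^ 2 * (1 - x) ^ 2 := by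
  unfold JF
  simp only [map_mul, map_pow, map_sub, map_one, aeval_X, aeval_C]
  simp

theorem JB_eval (x : K) : aeval x JB = 4 * (x ^ 2 - x + 1) ^ 3 := by
  unfold JB
  simp only [map_mul, map_pow, map_sub, map_add, map_one, aeval_X, aeval_C]
  simp

theorem JG_eval (x : K) : aeval x JG = (x + 1) * (x - 2) * (2 * x - 1) := by
  unfold JG
  simp only [map_mul, map_sub, map_add, map_one, aeval_X, aeval_C]
  simp

theorem JP_eval (x : K) : aeval x JP = x ^ 2 - x + 1 := by
  unfold JP
  simp [map_sub]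

theorem J_eq (x : K) : J x = aeval x JF / aeval x JB := by
  rw [JF_eval, JB_eval]
  rfl

theorem fp_nat_le (v : HeightOneSpectrum (𝓞 K)) (n : ℕ) : FinitePlace.mk v (n : K) ≤ 1 := by
  have := (na (FinitePlace.mk v)).apply_natCast_le_one (n := n)
  exact this

theorem J_tot (x : K) (hx0 : x ≠ 0) (hx1 : x ≠ 1) (hP : x ^ 2 - x + 1 ≠ 0)
    (hG : (x + 1) * (x - 2) * (2 * x - 1) ≠ 0) :
    tot (J x) ≤ tot x + cn ((x + 1) * (x - 2) * (2 * x - 1)) + cn (x ^ 2 - x + 1) +
      cn (3 : K) + 2 * cn (2 : K) := by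
  have h1x : 1 - x ≠ 0 := sub_ne_zero.2 (Ne.symm hx1)
  have h2K : (2 : K) ≠ 0 := two_ne_zero
  have h3K : (3 : K) ≠ 0 := three_ne_zero
  have h4K : (4 : K) ≠ 0 := by norm_num
  have h27K : (27 : K) ≠ 0 := by norm_num
  have hJ0 : J x ≠ 0 := by
    unfold J
    exact div_ne_zero (mul_ne_zero (mul_ne_zero h27K (pow_ne_zero _ hx0)) (pow_ne_zero _ h1x))
      (mul_ne_zero h4K (pow_ne_zero _ hP))
  have e1 : 1 - J x = ((x + 1) * (x - 2) * (2 * x - 1)) ^ 2 / (4 * (x ^ 2 - x + 1) ^ 3) := by
    have hne : 4 * (x ^ 2 - x + 1) ^ 3 ≠ 0 := mul_ne_zero h4K (pow_ne_zero _ hP)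
    unfold J
    rw [eq_div_iff hne, sub_mul, one_mul, div_mul_cancel₀ _ hne]
    ring
  have hJ1 : 1 - J x ≠ 0 := by
    rw [e1]
    exact div_ne_zero (pow_ne_zero _ hG) (mul_ne_zero h4K (pow_ne_zero _ hP))
  -- local facts
  have loc : ∀ v : HeightOneSpectrum (𝓞 K), FinitePlace.mk v (3 : K) ≤ 1 ∧
      FinitePlace.mk v (2 : K) ≤ 1 := fun v =>
    ⟨by exact_mod_cast fp_nat_le v 3, by exact_mod_cast fp_nat_le v 2⟩
  have e4 : ∀ v : HeightOneSpectrum (𝓞 K), FinitePlace.mk v (4 : K) =
      FinitePlace.mk v (2 : K) ^ 2 := fun v => by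
    rw [← map_pow]
    norm_num
  have e27 : ∀ v : HeightOneSpectrum (𝓞 K), FinitePlace.mk v (27 : K) =
      FinitePlace.mk v (3 : K) ^ 3 := fun v => by
    rw [← map_pow]
    norm_num
  -- `x ^ 2 - x + 1` for large `x`
  have hPlarge : ∀ v : HeightOneSpectrum (𝓞 K), 1 < FinitePlace.mk v x →
      FinitePlace.mk v (x ^ 2 - x + 1) = FinitePlace.mk v x ^ 2 := by
    intro v hv
    have h1 : FinitePlace.mk v (-x + 1) < FinitePlace.mk v (x ^ 2) := by
      refine lt_of_le_of_lt (FinitePlace.add_le _ _ _) ?_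
      rw [map_neg_eq_map, map_one, max_eq_left hv.le, map_pow]
      nlinarith
    apply le_antisymm
    · have h2 := FinitePlace.add_le (FinitePlace.mk v) (x ^ 2) (-x + 1)
      rw [max_eq_left h1.le, map_pow] at h2
      have h3 : x ^ 2 + (-x + 1) = x ^ 2 - x + 1 := by ring
      rwa [h3] at h2
    · have h2 := FinitePlace.add_le (FinitePlace.mk v) (x ^ 2 - x + 1) (-(-x + 1))
      have h3 : x ^ 2 - x + 1 + -(-x + 1) = x ^ 2 := by ring
      rw [h3, map_neg_eq_map] at h2
      rcases le_max_iff.1 h2 with h4 | h4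
      · rwa [map_pow] at h4
      · linarith
  have hPle : ∀ v : HeightOneSpectrum (𝓞 K), FinitePlace.mk v x ≤ 1 →
      FinitePlace.mk v (x ^ 2 - x + 1) ≤ 1 := by
    intro v hv
    have h2 := FinitePlace.add_le (FinitePlace.mk v) (x ^ 2 - x) 1
    have h3 := FinitePlace.add_le (FinitePlace.mk v) (x ^ 2) (-x)
    rw [← sub_eq_add_neg, map_neg_eq_map, map_pow] at h3
    have h4 : FinitePlace.mk v x ^ 2 ≤ 1 := pow_le_one₀ (apply_nonneg _ _) hv
    rw [map_one] at h2
    exact h2.trans (max_le (h3.trans (max_le h4 hv)) le_rfl)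
  -- the three parts
  have g1 : cn (J x) ≤ tot x + cn (3 : K) := by
    unfold tot
    classical
    set S := (small_finite hJ0).toFinset ∪ (small_finite hx0).toFinset ∪
      (small_finite h1x).toFinset ∪ (small_finite (inv_ne_zero hx0)).toFinset ∪
      (small_finite h3K).toFinset with hS
    have m1 : ∀ v, FinitePlace.mk v (J x) < 1 → v ∈ S := fun v hv => by
      rw [hS]
      simp only [Finset.mem_union, Set.Finite.mem_toFinset]
      exact Or.inl (Or.inl (Or.inl (Or.inl hv)))
    have m2 : ∀ v, FinitePlace.mk v x < 1 → v ∈ S := fun v hv => by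
      rw [hS]
      simp only [Finset.mem_union, Set.Finite.mem_toFinset]
      exact Or.inl (Or.inl (Or.inl (Or.inr hv)))
    have m3 : ∀ v, FinitePlace.mk v (1 - x) < 1 → v ∈ S := fun v hv => by
      rw [hS]
      simp only [Finset.mem_union, Set.Finite.mem_toFinset]
      exact Or.inl (Or.inl (Or.inr hv))
    have m4 : ∀ v, FinitePlace.mk v x⁻¹ < 1 → v ∈ S := fun v hv => by
      rw [hS]
      simp only [Finset.mem_union, Set.Finite.mem_toFinset]
      exact Or.inl (Or.inr hv)
    have m5 : ∀ v, FinitePlace.mk v (3 : K) < 1 → v ∈ S := fun v hv => by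
      rw [hS]
      simp only [Finset.mem_union, Set.Finite.mem_toFinset]
      exact Or.inr hv
    rw [cn_eq hJ0 S m1, cn_eq hx0 S m2, cn_eq h1x S m3, cn_eq (inv_ne_zero hx0) S m4,
      cn_eq h3K S m5, ← add_div, ← add_div, ← add_div, div_le_div_iff_of_pos_right n_pos,
      ← Finset.sum_add_distrib, ← Finset.sum_add_distrib, ← Finset.sum_add_distrib]
    apply Finset.sum_le_sum
    intro v _
    have h0 : 0 ≤ Real.log (Ideal.absNorm v.asIdeal : ℝ) := Real.log_natCast_nonneg _
    by_cases h1 : FinitePlace.mk v (J x) < 1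
    · rw [if_pos h1]
      by_cases a1 : FinitePlace.mk v x < 1
      · rw [if_pos a1]
        split_ifs <;> linarith
      by_cases a2 : FinitePlace.mk v (1 - x) < 1
      · rw [if_pos a2]
        split_ifs <;> linarith
      by_cases a3 : FinitePlace.mk v x⁻¹ < 1
      · rw [if_pos a3]
        split_ifs <;> linarith
      by_cases a4 : FinitePlace.mk v (3 : K) < 1
      · rw [if_pos a4]
        split_ifs <;> linarith
      exfalso
      push Not at a1 a2 a3 a4
      have hxv : FinitePlace.mk v x = 1 := by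
        apply le_antisymm _ a1
        rw [map_inv₀] at a3
        have hvx : 0 < FinitePlace.mk v x := FinitePlace.pos_iff.2 hx0
        exact (one_le_inv₀ hvx).1 a3
      have h3v : FinitePlace.mk v (3 : K) = 1 := le_antisymm (loc v).1 a4
      unfold J at h1
      rw [map_div₀, map_mul, map_mul, map_pow, map_pow, map_mul, map_pow, e27, e4, hxv, h3v,
        one_pow, one_pow, one_mul, one_mul] at h1
      have hPv : FinitePlace.mk v (x ^ 2 - x + 1) ≤ 1 := hPle v hxv.le
      have h2v := (loc v).2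
      have hden : FinitePlace.mk v (2 : K) ^ 2 * FinitePlace.mk v (x ^ 2 - x + 1) ^ 3 ≤ 1 := by
        calc _ ≤ (1 : ℝ) * 1 := mul_le_mul (pow_le_one₀ (apply_nonneg _ _) h2v)
              (pow_le_one₀ (apply_nonneg _ _) hPv) (pow_nonneg (apply_nonneg _ _) _) zero_le_one
          _ = 1 := one_mul 1
      have hdenpos : 0 < FinitePlace.mk v (2 : K) ^ 2 * FinitePlace.mk v (x ^ 2 - x + 1) ^ 3 :=
        mul_pos (pow_pos (FinitePlace.pos_iff.2 h2K) _) (pow_pos (FinitePlace.pos_iff.2 hP) _)
      rw [div_lt_one hdenpos] at h1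
      have := one_le_pow₀ a2 (n := 2)
      linarith
    · rw [if_neg h1]
      split_ifs <;> linarith
  have g2 : cn (1 - J x) ≤ cn ((x + 1) * (x - 2) * (2 * x - 1)) + cn (2 : K) := by
    apply cn_sub hJ1 hG h2K
    intro v hv
    by_contra hcon
    push Not at hcon
    obtain ⟨a1, a2⟩ := hcon
    have h2v : FinitePlace.mk v (2 : K) = 1 := le_antisymm (loc v).2 a2
    rw [e1, map_div₀, map_mul, map_pow, map_pow, e4, h2v, one_pow, one_mul] at hv
    have hdenpos : 0 < FinitePlace.mk v (x ^ 2 - x + 1) ^ 3 := pow_pos (FinitePlace.pos_iff.2 hP) _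
    rw [div_lt_one hdenpos] at hv
    rcases le_or_gt (FinitePlace.mk v x) 1 with hx | hx
    · have h3 : FinitePlace.mk v (x ^ 2 - x + 1) ^ 3 ≤ 1 := pow_le_one₀ (apply_nonneg _ _) (hPle v hx)
      have h4 := one_le_pow₀ a1 (n := 2)
      linarith
    · rw [hPlarge v hx] at hv
      -- |x + 1| = |x - 2| = |2 x - 1| = |x|
      have hge : ∀ (a : K) (t : K), FinitePlace.mk v a = 1 → FinitePlace.mk v t ≤ 1 →
          FinitePlace.mk v x ≤ FinitePlace.mk v (a * x + t) := by
        intro a t ha ht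
        have h5 := FinitePlace.add_le (FinitePlace.mk v) (a * x + t) (-t)
        rw [add_neg_cancel_right, map_mul, ha, one_mul, map_neg_eq_map] at h5
        rcases le_max_iff.1 h5 with h6 | h6
        · exact h6
        · linarith
      have b1 : FinitePlace.mk v x ≤ FinitePlace.mk v (x + 1) := by
        have := hge 1 1 (map_one _) (by rw [map_one])
        rwa [one_mul] at this
      have b2 : FinitePlace.mk v x ≤ FinitePlace.mk v (x - 2) := by
        have := hge 1 (-2) (map_one _) (by rw [map_neg_eq_map, h2v])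
        rwa [one_mul, ← sub_eq_add_neg] at this
      have b3 : FinitePlace.mk v x ≤ FinitePlace.mk v (2 * x - 1) := by
        have := hge 2 (-1) h2v (by rw [map_neg_eq_map, map_one])
        rwa [← sub_eq_add_neg] at this
      have hvx : 0 < FinitePlace.mk v x := FinitePlace.pos_iff.2 hx0
      have b4 : FinitePlace.mk v x ^ 3 ≤ FinitePlace.mk v ((x + 1) * (x - 2) * (2 * x - 1)) := by
        rw [map_mul, map_mul]
        calc FinitePlace.mk v x ^ 3 = FinitePlace.mk v x * FinitePlace.mk v x * FinitePlace.mk v x := by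
              ring
          _ ≤ _ := mul_le_mul (mul_le_mul b1 b2 hvx.le (apply_nonneg _ _)) b3 hvx.le
              (mul_nonneg (apply_nonneg _ _) (apply_nonneg _ _))
      have b5 := pow_le_pow_left₀ (pow_nonneg hvx.le 3) b4 2
      have b6 : (FinitePlace.mk v x ^ 3) ^ 2 = (FinitePlace.mk v x ^ 2) ^ 3 := by ring
      linarith
  have g3 : cn (J x)⁻¹ ≤ cn (x ^ 2 - x + 1) + cn (2 : K) := by
    apply cn_sub (inv_ne_zero hJ0) hP h2K
    intro v hv
    by_contra hcon
    push Not at hcon
    obtain ⟨a1, a2⟩ := hcon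
    have h2v : FinitePlace.mk v (2 : K) = 1 := le_antisymm (loc v).2 a2
    have h3v := (loc v).1
    have hnumpos : 0 < FinitePlace.mk v (27 * x ^ 2 * (1 - x) ^ 2) :=
      FinitePlace.pos_iff.2 (mul_ne_zero (mul_ne_zero h27K (pow_ne_zero _ hx0)) (pow_ne_zero _ h1x))
    unfold J at hv
    rw [inv_div, map_div₀, div_lt_one hnumpos, map_mul, map_pow, e4, h2v, one_pow, one_mul, map_mul,
      map_mul, map_pow, map_pow, e27] at hv
    have h27v : FinitePlace.mk v (3 : K) ^ 3 ≤ 1 := pow_le_one₀ (apply_nonneg _ _) h3v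
    rcases le_or_gt (FinitePlace.mk v x) 1 with hx | hx
    · have h1x' : FinitePlace.mk v (1 - x) ≤ 1 := by
        have := FinitePlace.add_le (FinitePlace.mk v) 1 (-x)
        rw [← sub_eq_add_neg, map_neg_eq_map, map_one] at this
        exact this.trans (max_le le_rfl hx)
      have h4 := one_le_pow₀ a1 (n := 3)
      have h5 : FinitePlace.mk v (3 : K) ^ 3 * FinitePlace.mk v x ^ 2 * FinitePlace.mk v (1 - x) ^ 2
          ≤ 1 * 1 * 1 :=
        mul_le_mul (mul_le_mul h27v (pow_le_one₀ (apply_nonneg _ _) hx)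
          (pow_nonneg (apply_nonneg _ _) _) zero_le_one) (pow_le_one₀ (apply_nonneg _ _) h1x')
          (pow_nonneg (apply_nonneg _ _) _) (by norm_num)
      linarith
    · have h1x' : FinitePlace.mk v (1 - x) ≤ FinitePlace.mk v x := by
        have := FinitePlace.add_le (FinitePlace.mk v) 1 (-x)
        rw [← sub_eq_add_neg, map_neg_eq_map, map_one] at this
        exact this.trans (max_le hx.le le_rfl)
      rw [hPlarge v hx] at hv
      have hvx : 0 < FinitePlace.mk v x := by linarith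
      have h5 : FinitePlace.mk v (3 : K) ^ 3 * FinitePlace.mk v x ^ 2 * FinitePlace.mk v (1 - x) ^ 2
          ≤ 1 * FinitePlace.mk v x ^ 2 * FinitePlace.mk v x ^ 2 :=
        mul_le_mul (mul_le_mul h27v le_rfl (pow_nonneg hvx.le _) zero_le_one)
          (pow_le_pow_left₀ (apply_nonneg _ _) h1x' 2) (pow_nonneg (apply_nonneg _ _) _)
          (by positivity)
      have h6 : FinitePlace.mk v x ^ 4 ≤ FinitePlace.mk v x ^ 6 :=
        pow_le_pow_right₀ hx.le (by norm_num)
      nlinarith
  have hcn3 : 0 ≤ cn (3 : K) := cn_nonneg _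
  have hdef : tot (J x) = cn (J x) + cn (1 - J x) + cn (J x)⁻¹ := rfl
  rw [hdef]
  linarith

end

end Pool.Agent.H34x.PL
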