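import Mathlib

/-!
# Powers of complex numbers near `0`, `1`, `∞`
-/

set_option autoImplicit false

namespace Pool.Agent.H34x.PL

/-- simultaneous return on the circle -/
theorem simret (d : ℕ) (ε : ℝ) (hε : 0 < ε) : ∃ J : ℕ, 1 ≤ J ∧ ∀ u : Fin d → ℂ, (∀ i, ‖u i‖ = 1) →
    ∃ j : ℕ, 1 ≤ j ∧ j ≤ J ∧ ∀ i, ‖u i ^ j - 1‖ ≤ ε := by
  classical
  set S : Set (Fin d → ℂ) := Metric.closedBall 0 1 with hS
  have hcomp : IsCompact S := isCompact_closedBall 0 1
  obtain ⟨t, -, htf, hcov⟩ := hcomp.finite_cover_balls (e := ε / 2) (by linarith)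
  refine ⟨htf.toFinset.card + 1, by omega, ?_⟩
  intro u hu
  have hmem : ∀ j : ℕ, (fun i => u i ^ j) ∈ S := by
    intro j
    rw [hS, mem_closedBall_zero_iff, pi_norm_le_iff_of_nonneg zero_le_one]
    intro i
    rw [norm_pow, hu i, one_pow]
  have hex : ∀ j : ℕ, ∃ x ∈ t, dist (fun i => u i ^ j) x < ε / 2 := by
    intro j
    have := hcov (hmem j)
    rw [Set.mem_iUnion₂] at this
    obtain ⟨x, hx, hd⟩ := this
    exact ⟨x, hx, hd⟩
  choose f hf hfd using hex
  have hpig : ∃ a ∈ Finset.range (htf.toFinset.card + 1), ∃ b ∈ Finset.range (htf.toFinset.card + 1),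
      a ≠ b ∧ f a = f b := by
    apply Finset.exists_ne_map_eq_of_card_lt_of_maps_to (t := htf.toFinset)
    · rw [Finset.card_range]
      omega
    · intro a _
      rw [Set.Finite.coe_toFinset]
      exact hf a
  obtain ⟨a, ha, b, hb, hab, hfab⟩ := hpig
  rw [Finset.mem_range] at ha hb
  wlog hlt : a < b generalizing a b
  · exact this b hb a ha (Ne.symm hab) hfab.symm (by omega)
  refine ⟨b - a, by omega, by omega, ?_⟩
  intro i
  have h1 : dist (fun i => u i ^ a) (fun i => u i ^ b) < ε := by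
    calc dist (fun i => u i ^ a) (fun i => u i ^ b) ≤
        dist (fun i => u i ^ a) (f a) + dist (f a) (fun i => u i ^ b) := dist_triangle _ _ _
      _ < ε / 2 + ε / 2 := by
          apply add_lt_add (hfd a)
          rw [hfab, dist_comm]
          exact hfd b
      _ = ε := by ring
  have h2 : dist (u i ^ a) (u i ^ b) < ε := lt_of_le_of_lt
    (dist_le_pi_dist (fun i => u i ^ a) (fun i => u i ^ b) i) h1
  have h3 : u i ^ b = u i ^ a * u i ^ (b - a) := by
    rw [← pow_add]
    congr 1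
    omega
  have h4 : u i ^ b - u i ^ a = u i ^ a * (u i ^ (b - a) - 1) := by rw [h3]; ring
  rw [dist_comm, dist_eq_norm, h4, norm_mul, norm_pow, hu i, one_pow, one_mul] at h2
  exact h2.le

/-- near `0`, `1` or `∞` -/
def Near3 (δ : ℝ) (z : ℂ) : Prop := ‖z‖ ≤ δ ∨ ‖1 - z‖ ≤ δ ∨ 1 / δ ≤ ‖z‖

theorem arch_scale (d : ℕ) (δ : ℝ) (hδ : 0 < δ) (hδ1 : δ < 1) (b : ℕ) (hb : 1 ≤ b) : ∃ E : ℕ,
    ∀ z : Fin d → ℂ, (∀ i, z i ≠ 0) → ∃ m : ℕ, b ∣ m ∧ 1 ≤ m ∧ m ≤ E ∧ ∀ i, Near3 δ (z i ^ m) := by
  classical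
  obtain ⟨J, hJ1, hJ⟩ := simret d (δ / 2) (by linarith)
  -- small logarithms
  obtain ⟨δ', hδ'0, hδ'⟩ : ∃ δ' : ℝ, 0 < δ' ∧ ∀ s : ℝ, |s| ≤ δ' → |Real.exp s - 1| ≤ δ / 2 := by
    have hc : ContinuousAt (fun s : ℝ => Real.exp s - 1) 0 := by fun_prop
    rw [Metric.continuousAt_iff] at hc
    obtain ⟨e, he, h⟩ := hc (δ / 2) (by linarith)
    refine ⟨e / 2, by linarith, ?_⟩
    intro s hs
    have := h (x := s) (by rw [Real.dist_eq, sub_zero]; linarith)
    rw [Real.dist_eq, Real.exp_zero, sub_self, sub_zero] at this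
    exact this.le
  set Λ : ℝ := Real.log (1 / δ) with hΛ
  have hΛ0 : 0 < Λ := Real.log_pos (by rw [lt_div_iff₀ hδ]; linarith)
  obtain ⟨Q, hQ⟩ := exists_nat_gt (Λ * J / δ')
  have hJpos : (0 : ℝ) < J := by exact_mod_cast hJ1
  have hQpos : (0 : ℝ) < Q := lt_trans (by positivity) hQ
  have hQ1 : 1 ≤ Q := by
    have : 0 < Q := by exact_mod_cast hQpos
    omega
  refine ⟨b * Q ^ d * J, ?_⟩
  intro z hz
  set lam : Fin d → ℝ := fun i => |Real.log ‖z i‖| with hlam
  -- bad indices
  have hscale : ∃ s ∈ Finset.range (d + 1), ∀ i : Fin d,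
      ¬ (δ' < lam i * (b * Q ^ s * J) ∧ lam i * (b * Q ^ s) < Λ) := by
    by_contra hcon
    push Not at hcon
    have hcon' : ∀ s : Fin (d + 1), ∃ i : Fin d,
        δ' < lam i * (b * Q ^ (s : ℕ) * J) ∧ lam i * (b * Q ^ (s : ℕ)) < Λ := fun s =>
      hcon s (Finset.mem_range.2 s.2)
    choose g hg1 hg2 using hcon'
    have hinj : Function.Injective g := by
      intro s s' hss
      by_contra hne
      wlog hlt : (s : ℕ) < s' generalizing s s'
      · exact this hss.symm (Ne.symm hne) (by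
          rcases Nat.lt_or_ge (s' : ℕ) s with h | h
          · exact h
          · exfalso
            apply hne
            apply Fin.ext
            omega)
      have h1 := hg1 s
      have h2 := hg2 s'
      rw [← hss] at h2
      have hl0 : 0 ≤ lam (g s) := abs_nonneg _
      have hpow : (Q : ℝ) ^ (s : ℕ) * Q ≤ (Q : ℝ) ^ (s' : ℕ) := by
        rw [← pow_succ]
        exact pow_le_pow_right₀ (by exact_mod_cast hQ1) (by omega)
      have hbpos : (0 : ℝ) < b := by exact_mod_cast hb
      have h3 : lam (g s) * (b * Q ^ (s : ℕ) * Q) ≤ lam (g s) * (b * Q ^ (s' : ℕ)) := by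
        apply mul_le_mul_of_nonneg_left _ hl0
        rw [mul_assoc]
        exact mul_le_mul_of_nonneg_left hpow hbpos.le
      have h4 : lam (g s) * (b * Q ^ (s : ℕ)) * Q < Λ := by
        calc lam (g s) * (b * Q ^ (s : ℕ)) * Q = lam (g s) * (b * Q ^ (s : ℕ) * Q) := by ring
          _ ≤ _ := h3
          _ < Λ := h2
      have h5 : δ' < lam (g s) * (b * Q ^ (s : ℕ)) * J := by
        calc δ' < lam (g s) * (b * Q ^ (s : ℕ) * J) := h1
          _ = _ := by ring
      set t := lam (g s) * (b * (Q : ℝ) ^ (s : ℕ)) with ht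
      have ht0 : 0 < t := by
        by_contra hcon
        push Not at hcon
        nlinarith
      rw [div_lt_iff₀ hδ'0] at hQ
      -- Λ J < Q δ' < Q t J, and t Q < Λ
      nlinarith
    have := Fintype.card_le_of_injective g hinj
    simp at this
  obtain ⟨s, hs, hgood⟩ := hscale
  rw [Finset.mem_range] at hs
  set B := b * Q ^ s with hB
  have hB1 : 1 ≤ B := Nat.mul_pos hb (Nat.pow_pos hQ1)
  have hBR : (B : ℝ) = b * Q ^ s := by rw [hB]; push_cast; ring
  obtain ⟨j, hj1, hjJ, hj⟩ := hJ (fun i => (z i / ‖z i‖) ^ B) (fun i => by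
    rw [norm_pow, norm_div, Complex.norm_real, norm_norm, div_self (norm_ne_zero_iff.2 (hz i)),
      one_pow])
  refine ⟨B * j, Dvd.dvd.mul_right (Dvd.intro _ rfl) _, Nat.mul_pos hB1 hj1, ?_, ?_⟩
  · calc B * j ≤ B * J := Nat.mul_le_mul_left _ hjJ
      _ ≤ b * Q ^ d * J := by
          apply Nat.mul_le_mul_right
          rw [hB]
          apply Nat.mul_le_mul_left
          exact Nat.pow_le_pow_right hQ1 (by omega)
  · intro i
    have hzn : 0 < ‖z i‖ := norm_pos_iff.2 (hz i)
    have hmR : ((B * j : ℕ) : ℝ) = B * j := by push_cast; ring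
    have hj1R : (1 : ℝ) ≤ j := by exact_mod_cast hj1
    have hjJR : (j : ℝ) ≤ J := by exact_mod_cast hjJ
    have hBpos : (0 : ℝ) < B := by exact_mod_cast hB1
    have hnorm : ‖z i ^ (B * j)‖ = Real.exp (((B * j : ℕ) : ℝ) * Real.log ‖z i‖) := by
      rw [norm_pow, Real.exp_nat_mul, Real.exp_log hzn]
    rcases le_or_gt (lam i * (B * J)) δ' with hsm | hbig
    · -- near one
      right; left
      have h1 : |((B * j : ℕ) : ℝ) * Real.log ‖z i‖| ≤ δ' := by
        rw [abs_mul, Nat.abs_cast, hmR]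
        calc (B * j : ℝ) * |Real.log ‖z i‖| ≤ (B * J) * lam i := by
              apply mul_le_mul_of_nonneg_right _ (abs_nonneg _)
              exact mul_le_mul_of_nonneg_left hjJR hBpos.le
          _ ≤ δ' := by rw [mul_comm]; exact hsm
      have h2 := hδ' _ h1
      have h3 := hj i
      have h4 : z i ^ (B * j) = (‖z i ^ (B * j)‖ : ℂ) * (((z i / ‖z i‖) ^ B) ^ j) := by
        rw [← pow_mul, div_pow, norm_pow]
        push_cast
        rw [mul_div_cancel₀]
        exact pow_ne_zero _ (by exact_mod_cast hzn.ne')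
      have h5 : 1 - z i ^ (B * j) = -(((‖z i ^ (B * j)‖ - 1 : ℝ) : ℂ) * (((z i / ‖z i‖) ^ B) ^ j) +
          ((((z i / ‖z i‖) ^ B) ^ j) - 1)) := by
        conv_lhs => rw [h4]
        push_cast
        ring
      rw [h5, norm_neg]
      refine (norm_add_le _ _).trans ?_
      have hu : ‖((z i / ‖z i‖) ^ B) ^ j‖ = 1 := by
        rw [norm_pow, norm_pow, norm_div, Complex.norm_real, norm_norm, div_self hzn.ne', one_pow,
          one_pow]
      rw [norm_mul, Complex.norm_real, hu, mul_one, hnorm, Real.norm_eq_abs]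
      linarith
    · -- near zero or infinity
      have hge : Λ ≤ lam i * B := by
        by_contra hcon
        push Not at hcon
        apply hgood i
        rw [← hBR]
        exact ⟨hbig, hcon⟩
      have hge2 : Λ ≤ lam i * ((B * j : ℕ) : ℝ) := by
        rw [hmR]
        have hl0 : 0 ≤ lam i := abs_nonneg _
        calc Λ ≤ lam i * B := hge
          _ = lam i * (B * 1) := by ring
          _ ≤ lam i * (B * j) := by
              apply mul_le_mul_of_nonneg_left _ hl0
              exact mul_le_mul_of_nonneg_left hj1R hBpos.le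
      rcases le_or_gt 0 (Real.log ‖z i‖) with hpos | hneg
      · right; right
        rw [hnorm, ← Real.exp_log (show 0 < 1 / δ by positivity)]
        apply Real.exp_le_exp.2
        have : lam i = Real.log ‖z i‖ := abs_of_nonneg hpos
        rw [this] at hge2
        linarith
      · left
        rw [hnorm]
        have : lam i = -Real.log ‖z i‖ := abs_of_neg hneg
        rw [this] at hge2
        have h6 : Real.exp (((B * j : ℕ) : ℝ) * Real.log ‖z i‖) ≤ Real.exp (-Λ) := by
          apply Real.exp_le_exp.2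
          linarith
        rwa [hΛ, Real.exp_neg, Real.exp_log (by positivity), one_div, inv_inv] at h6

end Pool.Agent.H34x.PL
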