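import Mathlib
import Pool.Agent.H34x.PL.Maps
import Pool.Agent.H34x.PL.Ret

/-!
# The `j`-map: heights, conductors and positions
-/

set_option autoImplicit false

namespace Pool.Agent.H34x.PL

open Polynomial NumberField IsDedekindDomain Height
open Pool.Agent.H34x.SL

theorem hh_nat_bound (n : ℕ) : ∃ c : ℝ, 0 ≤ c ∧ ∀ (K : Type) [Field K] [NumberField K],
    hh (n : K) ≤ c := by
  refine ⟨Real.log (L1 (C (n : ℤ))), Real.log_nonneg (one_le_L1 _), ?_⟩
  intro K _ _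
  have h := hh_upper (K := K) (C (n : ℤ)) (N := 0) (by rw [natDegree_C]) 0
  rw [aeval_C] at h
  simpa using h

theorem j_step : ∃ c : ℝ, 0 ≤ c ∧ ∀ (K : Type) [Field K] [NumberField K] (x : K), x ≠ 0 → x ≠ 1 →
    hh x ≤ c ∨ (J x ≠ 0 ∧ J x ≠ 1 ∧ 6 * hh x ≤ hh (J x) + c ∧ hh (J x) ≤ 6 * hh x + c ∧
      tot (J x) ≤ tot x + 5 * hh x + c) := by
  obtain ⟨c1, hc1, hl⟩ := hh_lower JB_deg JF_deg JB_ne J_cop
  obtain ⟨c2, hc2, h2⟩ := hh_nat_bound 2
  obtain ⟨c3, hc3, h3⟩ := hh_nat_bound 3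
  have lF : 0 ≤ Real.log (L1 JF + L1 JB) := Real.log_nonneg (by
    have := one_le_L1 JF
    have := one_le_L1 JB
    linarith)
  have lG := Real.log_nonneg (one_le_L1 JG)
  have lP := Real.log_nonneg (one_le_L1 JP)
  refine ⟨c1 + 2 * c2 + c3 + Real.log (L1 JF + L1 JB) + Real.log (L1 JG) + Real.log (L1 JP),
    by positivity, ?_⟩
  intro K _ _ x hx0 hx1
  have hlow : 6 * hh x ≤ hh (J x) + c1 := by
    have h := hl K x
    rw [show aeval x JB / aeval x JF = (J x)⁻¹ by rw [J_eq, inv_div], hh_inv] at h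
    exact_mod_cast h
  have hup : hh (J x) ≤ 6 * hh x + Real.log (L1 JF + L1 JB) := by
    have h := hh_quot_le JF JB JF_deg JB_deg.le x
    rw [← J_eq] at h
    exact_mod_cast h
  have hhx := hh_nonneg x
  by_cases hP : x ^ 2 - x + 1 = 0
  · left
    have e : J x = 0 := by
      unfold J
      rw [hP]
      simp
    rw [e, hh_zero] at hlow
    linarith
  by_cases hG : (x + 1) * (x - 2) * (2 * x - 1) = 0
  · left
    have e : J x = 1 := by
      have hne : 4 * (x ^ 2 - x + 1) ^ 3 ≠ 0 := mul_ne_zero (by norm_num) (pow_ne_zero _ hP)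
      have e1 : 1 - J x = ((x + 1) * (x - 2) * (2 * x - 1)) ^ 2 / (4 * (x ^ 2 - x + 1) ^ 3) := by
        unfold J
        rw [eq_div_iff hne, sub_mul, one_mul, div_mul_cancel₀ _ hne]
        ring
      rw [hG] at e1
      have : 1 - J x = 0 := by rw [e1]; simp
      exact (sub_eq_zero.1 this).symm
    rw [e, hh_one] at hlow
    linarith
  right
  have h1x : 1 - x ≠ 0 := sub_ne_zero.2 (Ne.symm hx1)
  have h4K : (4 : K) ≠ 0 := by norm_num
  have h27K : (27 : K) ≠ 0 := by norm_num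
  have hJ0 : J x ≠ 0 := by
    unfold J
    exact div_ne_zero (mul_ne_zero (mul_ne_zero h27K (pow_ne_zero _ hx0)) (pow_ne_zero _ h1x))
      (mul_ne_zero h4K (pow_ne_zero _ hP))
  have hJ1 : J x ≠ 1 := by
    intro h
    have hne : 4 * (x ^ 2 - x + 1) ^ 3 ≠ 0 := mul_ne_zero h4K (pow_ne_zero _ hP)
    have e1 : 1 - J x = ((x + 1) * (x - 2) * (2 * x - 1)) ^ 2 / (4 * (x ^ 2 - x + 1) ^ 3) := by
      unfold J
      rw [eq_div_iff hne, sub_mul, one_mul, div_mul_cancel₀ _ hne]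
      ring
    rw [h, sub_self] at e1
    exact (div_ne_zero (pow_ne_zero 2 hG) hne) e1.symm
  have ht := J_tot x hx0 hx1 hP hG
  have b1 : cn ((x + 1) * (x - 2) * (2 * x - 1)) ≤ 3 * hh x + Real.log (L1 JG) := by
    have g1 := cn_le_hh hG
    have g2 := hh_upper JG JG_deg x
    rw [JG_eval] at g2
    push_cast at g2
    linarith
  have b2 : cn (x ^ 2 - x + 1) ≤ 2 * hh x + Real.log (L1 JP) := by
    have g1 := cn_le_hh hP
    have g2 := hh_upper JP JP_deg x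
    rw [JP_eval] at g2
    push_cast at g2
    linarith
  have b3 : cn (2 : K) ≤ c2 := (cn_le_hh two_ne_zero).trans (by exact_mod_cast h2 K)
  have b4 : cn (3 : K) ≤ c3 := (cn_le_hh three_ne_zero).trans (by exact_mod_cast h3 K)
  exact ⟨hJ0, hJ1, by linarith, by linarith, by linarith⟩

/-! ### positions -/

section

variable {K : Type*} [Field K]

/-- the `j`-map over any field -/
noncomputable def Jg (x : K) : K := 27 * x ^ 2 * (1 - x) ^ 2 / (4 * (x ^ 2 - x + 1) ^ 3)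

theorem Jg_one_sub (x : K) : Jg (1 - x) = Jg x := by
  unfold Jg
  rw [show (1 - x) ^ 2 - (1 - x) + 1 = x ^ 2 - x + 1 by ring, sub_sub_cancel]
  ring

theorem Jg_inv (x : K) (hx : x ≠ 0) : Jg x⁻¹ = Jg x := by
  unfold Jg
  have h6 : x ^ 6 ≠ 0 := pow_ne_zero _ hx
  rw [← mul_div_mul_left _ _ h6]
  congr 1
  · field_simp
    ring
  · field_simp
    ring

end

theorem J_eq_Jg {K : Type} [Field K] [NumberField K] (x : K) : J x = Jg x := rfl

theorem Jg_small (z : ℂ) {δ : ℝ} (hδ : δ ≤ 1 / 10) (hz : ‖z‖ ≤ δ) : ‖Jg z‖ ≤ 13 * δ ^ 2 := by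
  have h0 := norm_nonneg z
  have hz1 : ‖z‖ ≤ 1 / 10 := hz.trans hδ
  have h1 : ‖1 - z‖ ≤ 11 / 10 := by
    have := norm_sub_le (1 : ℂ) z
    rw [norm_one] at this
    linarith
  have h2 : 89 / 100 ≤ ‖z ^ 2 - z + 1‖ := by
    have g1 : (1 : ℂ) = (z ^ 2 - z + 1) - (z ^ 2 - z) := by ring
    have g2 : ‖(1 : ℂ)‖ ≤ ‖z ^ 2 - z + 1‖ + ‖z ^ 2 - z‖ := by
      conv_lhs => rw [g1]
      exact norm_sub_le _ _
    rw [norm_one] at g2
    have g3 : ‖z ^ 2 - z‖ ≤ 11 / 100 := by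
      have := norm_sub_le (z ^ 2) z
      rw [norm_pow] at this
      nlinarith
    linarith
  have h3 : (2 : ℝ) / 3 ≤ ‖z ^ 2 - z + 1‖ ^ 3 := by
    have := pow_le_pow_left₀ (by norm_num) h2 3
    norm_num at this ⊢
    linarith
  unfold Jg
  rw [norm_div, norm_mul, norm_mul, norm_mul, norm_pow, norm_pow, norm_pow]
  have e27 : ‖(27 : ℂ)‖ = 27 := by simp
  have e4 : ‖(4 : ℂ)‖ = 4 := by simp
  rw [e27, e4, div_le_iff₀ (by positivity)]
  have h4 : ‖z‖ ^ 2 ≤ δ ^ 2 := pow_le_pow_left₀ h0 hz 2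
  have h5 : ‖1 - z‖ ^ 2 ≤ (11 / 10) ^ 2 := pow_le_pow_left₀ (norm_nonneg _) h1 2
  calc 27 * ‖z‖ ^ 2 * ‖1 - z‖ ^ 2 ≤ 27 * δ ^ 2 * (11 / 10) ^ 2 := by
        apply mul_le_mul (by linarith) h5 (by positivity) (by positivity)
    _ ≤ 13 * δ ^ 2 * (4 * (2 / 3)) := by nlinarith [sq_nonneg δ]
    _ ≤ _ := by nlinarith [sq_nonneg δ]

theorem Jg_near (z : ℂ) {δ : ℝ} (hδ0 : 0 < δ) (hδ : δ ≤ 1 / 10) (hz : Near3 δ z) :
    ‖Jg z‖ ≤ 13 * δ ^ 2 := by
  rcases hz with h | h | h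
  · exact Jg_small z hδ h
  · rw [← Jg_one_sub]
    exact Jg_small _ hδ h
  · have hz0 : z ≠ 0 := by
      rintro rfl
      rw [norm_zero] at h
      have : 0 < 1 / δ := by positivity
      linarith
    rw [← Jg_inv z hz0]
    apply Jg_small _ hδ
    rw [norm_inv]
    rw [one_div] at h
    have := inv_anti₀ (inv_pos.2 hδ0) h
    rwa [inv_inv] at this

section

variable {K : Type} [Field K] [NumberField K]

theorem J_arch (w : InfinitePlace K) (x : K) {δ : ℝ} (hδ0 : 0 < δ) (hδ : δ ≤ 1 / 10)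
    (hz : Near3 δ (w.embedding x)) : w (J x) ≤ 13 * δ ^ 2 := by
  have h1 : w.embedding (J x) = Jg (w.embedding x) := by
    have e27 : w.embedding 27 = 27 := map_ofNat w.embedding 27
    have e4 : w.embedding 4 = 4 := map_ofNat w.embedding 4
    unfold J Jg
    rw [map_div₀, map_mul, map_mul, map_mul, map_pow, map_pow, map_pow, map_add, map_sub, map_sub,
      map_pow, map_one, e27, e4]
  rw [← InfinitePlace.norm_embedding_eq, h1]
  exact Jg_near _ hδ0 hδ hz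

theorem J_na_small (v : HeightOneSpectrum (𝓞 K)) (N : ℕ) (hN : N ≠ 0) (x : K)
    (h2 : FinitePlace.mk v ((2 * N : ℕ) : K) < 1)
    (hx : FinitePlace.mk v x ≤ FinitePlace.mk v ((2 * N : ℕ) : K)) :
    FinitePlace.mk v (J x) ≤ FinitePlace.mk v (N : K) := by
  have hx1 : FinitePlace.mk v x < 1 := lt_of_le_of_lt hx h2
  have hx0 := apply_nonneg (FinitePlace.mk v) x
  have g1 : FinitePlace.mk v (1 - x) ≤ 1 := by
    have := FinitePlace.add_le (FinitePlace.mk v) 1 (-x)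
    rw [← sub_eq_add_neg, map_neg_eq_map, map_one] at this
    exact this.trans (max_le le_rfl hx1.le)
  have g2 : 1 ≤ FinitePlace.mk v (x ^ 2 - x + 1) := by
    have h3 := FinitePlace.add_le (FinitePlace.mk v) (x ^ 2 - x + 1) (x * (1 - x))
    rw [show x ^ 2 - x + 1 + x * (1 - x) = 1 by ring, map_one] at h3
    rcases le_max_iff.1 h3 with h4 | h4
    · exact h4
    · exfalso
      rw [map_mul] at h4
      have : FinitePlace.mk v x * FinitePlace.mk v (1 - x) ≤ FinitePlace.mk v x * 1 :=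
        mul_le_mul_of_nonneg_left g1 hx0
      linarith
  have h2K : (2 : K) ≠ 0 := two_ne_zero
  have h2v : 0 < FinitePlace.mk v (2 : K) := FinitePlace.pos_iff.2 h2K
  have e4 : FinitePlace.mk v (4 : K) = FinitePlace.mk v (2 : K) ^ 2 := by
    rw [← map_pow]
    norm_num
  have h27 : FinitePlace.mk v (27 : K) ≤ 1 := by exact_mod_cast fp_nat_le v 27
  have hNv1 : FinitePlace.mk v (N : K) ≤ 1 := fp_nat_le v N
  have hNv0 := apply_nonneg (FinitePlace.mk v) (N : K)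
  have hxN : FinitePlace.mk v x ≤ FinitePlace.mk v (2 : K) * FinitePlace.mk v (N : K) := by
    rw [← map_mul]
    exact_mod_cast hx
  unfold J
  rw [map_div₀, map_mul, map_mul, map_mul, map_pow, map_pow, map_pow, e4,
    div_le_iff₀ (by positivity)]
  have g3 : 1 ≤ FinitePlace.mk v (x ^ 2 - x + 1) ^ 3 := one_le_pow₀ g2
  have g4 : FinitePlace.mk v (1 - x) ^ 2 ≤ 1 := pow_le_one₀ (apply_nonneg _ _) g1
  have g5 : FinitePlace.mk v x ^ 2 ≤ (FinitePlace.mk v (2 : K) * FinitePlace.mk v (N : K)) ^ 2 :=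
    pow_le_pow_left₀ hx0 hxN 2
  have g6 : FinitePlace.mk v (N : K) ^ 2 ≤ FinitePlace.mk v (N : K) := by nlinarith
  calc FinitePlace.mk v (27 : K) * FinitePlace.mk v x ^ 2 * FinitePlace.mk v (1 - x) ^ 2
      ≤ 1 * (FinitePlace.mk v (2 : K) * FinitePlace.mk v (N : K)) ^ 2 * 1 :=
        mul_le_mul (mul_le_mul h27 g5 (by positivity) zero_le_one) g4 (by positivity)
          (by positivity)
    _ = FinitePlace.mk v (2 : K) ^ 2 * FinitePlace.mk v (N : K) ^ 2 := by ring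
    _ ≤ FinitePlace.mk v (2 : K) ^ 2 * FinitePlace.mk v (N : K) :=
        mul_le_mul_of_nonneg_left g6 (by positivity)
    _ = FinitePlace.mk v (N : K) * (FinitePlace.mk v (2 : K) ^ 2 * 1) := by ring
    _ ≤ _ := mul_le_mul_of_nonneg_left (mul_le_mul_of_nonneg_left g3 (by positivity)) hNv0

theorem J_na (v : HeightOneSpectrum (𝓞 K)) (N : ℕ) (hN : N ≠ 0) (x : K) (hx0 : x ≠ 0)
    (h2 : FinitePlace.mk v ((2 * N : ℕ) : K) < 1)
    (hx : FinitePlace.mk v x ≤ FinitePlace.mk v ((2 * N : ℕ) : K) ∨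
      FinitePlace.mk v (1 - x) ≤ FinitePlace.mk v ((2 * N : ℕ) : K) ∨
      FinitePlace.mk v x⁻¹ ≤ FinitePlace.mk v ((2 * N : ℕ) : K)) :
    FinitePlace.mk v (J x) ≤ FinitePlace.mk v (N : K) := by
  rcases hx with h | h | h
  · exact J_na_small v N hN x h2 h
  · have := J_na_small v N hN (1 - x) h2 h
    rwa [J_eq_Jg, Jg_one_sub, ← J_eq_Jg] at this
  · have := J_na_small v N hN x⁻¹ h2 h
    rwa [J_eq_Jg, Jg_inv x hx0, ← J_eq_Jg] at this

end

end Pool.Agent.H34x.PL
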