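import Mathlib
import Pool.Agent.H34x.KG.Loc

/-!
# Powers of elements of a number field near `0`, `1`, `∞` at the primes dividing an integer
-/

set_option autoImplicit false

namespace Pool.Agent.H34x.PL

open NumberField IsDedekindDomain
open Pool.Agent.H34x.KF Pool.Agent.H34x.KG

section

variable {K : Type} [Field K] [NumberField K]

theorem mk_le_iff (v : HeightOneSpectrum (𝓞 K)) {p q : K} :
    v.valuation K p ≤ v.valuation K q ↔ FinitePlace.mk v p ≤ FinitePlace.mk v q := by
  have e : ∀ x : K, FinitePlace.mk v x = ((WithZeroMulInt.toNNReal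
      (HeightOneSpectrum.absNorm_ne_zero v) (v.valuation K x) : NNReal) : ℝ) := fun x => by
    rw [FinitePlace.mk_apply, FinitePlace.norm_embedding']
  rw [e, e, NNReal.coe_le_coe]
  exact (WithZeroMulInt.toNNReal_strictMono (HeightOneSpectrum.one_lt_absNorm_nnreal v)).le_iff_le.symm

/-- local integers are quotients with a denominator which is a unit at `v` -/
theorem local_frac (v : HeightOneSpectrum (𝓞 K)) (x : K) (hx : FinitePlace.mk v x ≤ 1) :
    ∃ α β : 𝓞 K, β ∉ v.asIdeal ∧ x = (α : K) / (β : K) := by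
  obtain ⟨s, Q, hQ, rfl⟩ := IsFractionRing.div_surjective (A := 𝓞 K) x
  have hQ0 : Q ≠ 0 := nonZeroDivisors.ne_zero hQ
  have hQK : (algebraMap (𝓞 K) K Q) ≠ 0 := by
    rw [Ne, FaithfulSMul.algebraMap_eq_zero_iff]
    exact hQ0
  have hvQ : 0 < FinitePlace.mk v (algebraMap (𝓞 K) K Q) := FinitePlace.pos_iff.2 hQK
  rw [map_div₀, div_le_one hvQ, ← mk_le_iff, HeightOneSpectrum.valuation_of_algebraMap,
    HeightOneSpectrum.valuation_of_algebraMap] at hx
  obtain ⟨t, ht, hts⟩ := loc hQ0 (s := s) (fun r hr => by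
    rw [← HeightOneSpectrum.intValuation_le_pow_iff_mem] at hr ⊢
    exact hx.trans hr)
  obtain ⟨z, hz⟩ := Ideal.mem_span_singleton'.1 hts
  refine ⟨z, t, ht, ?_⟩
  have ht0 : (t : K) ≠ 0 := by
    intro h
    have : t = 0 := by exact_mod_cast h
    exact ht (by rw [this]; exact v.asIdeal.zero_mem)
  have h2 : (z : K) * (algebraMap (𝓞 K) K Q) = (t : K) * (algebraMap (𝓞 K) K s) := by
    have := congrArg (algebraMap (𝓞 K) K) hz
    rw [map_mul, map_mul] at this
    exact this
  rw [div_eq_div_iff hQK ht0]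
  linear_combination -h2

theorem fp_unit (v : HeightOneSpectrum (𝓞 K)) {β : 𝓞 K} (hβ : β ∉ v.asIdeal) :
    FinitePlace.mk v (β : K) = 1 := by
  apply le_antisymm (fp_le_one v β)
  by_contra hcon
  push Not at hcon
  exact hβ ((fp_lt_one_iff v β).1 hcon)

/-- the exponent of `v` in `M` is bounded -/
theorem ord_le (v : HeightOneSpectrum (𝓞 K)) {M d r : ℕ} (hM : 1 ≤ M)
    (hd : Module.finrank ℚ K ≤ d) (h : (M : 𝓞 K) ∈ v.asIdeal ^ r) :
    (Ideal.absNorm v.asIdeal) ^ r ≤ M ^ d := by
  have hM0 : (M : 𝓞 K) ≠ 0 := by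
    have : M ≠ 0 := by omega
    exact_mod_cast this
  have h1 : v.asIdeal ^ r ∣ Ideal.span {(M : 𝓞 K)} := Ideal.dvd_span_singleton.2 h
  have h2 := map_dvd Ideal.absNorm h1
  rw [map_pow] at h2
  have h3 : Ideal.absNorm (Ideal.span {(M : 𝓞 K)}) = M ^ Module.finrank ℚ K := by
    rw [Ideal.absNorm_span_singleton]
    have : (M : 𝓞 K) = algebraMap ℤ (𝓞 K) M := by simp
    rw [this, Algebra.norm_algebraMap, Int.natAbs_pow, Int.natAbs_natCast, RingOfIntegers.rank]
  rw [h3] at h2
  exact (Nat.le_of_dvd (Nat.pow_pos hM) h2).trans (Nat.pow_le_pow_right hM hd)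

theorem case_le_one {M d m : ℕ} (hM : 1 ≤ M) (hd : Module.finrank ℚ K ≤ d)
    (hm : (M ^ d).factorial ∣ m) (hm1 : 1 ≤ m) (v : HeightOneSpectrum (𝓞 K)) (x : K)
    (hx : FinitePlace.mk v x ≤ 1) :
    FinitePlace.mk v (x ^ m) ≤ FinitePlace.mk v (M : K) ∨
      FinitePlace.mk v (1 - x ^ m) ≤ FinitePlace.mk v (M : K) := by
  obtain ⟨α, β, hβ, rfl⟩ := local_frac v x hx
  have hM0 : (M : 𝓞 K) ≠ 0 := by
    have : M ≠ 0 := by omega
    exact_mod_cast this
  have hMd : M ^ d ≤ m := (Nat.self_le_factorial _).trans (Nat.le_of_dvd hm1 hm)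
  have hMcast : ((M : 𝓞 K) : K) = (M : K) := by simp
  have hβK : (β : K) ≠ 0 := by
    intro h
    have : β = 0 := by exact_mod_cast h
    exact hβ (by rw [this]; exact v.asIdeal.zero_mem)
  have hN2 : 2 ≤ Ideal.absNorm v.asIdeal := HeightOneSpectrum.one_lt_absNorm v
  by_cases hα : α ∈ v.asIdeal
  · left
    have h1 : FinitePlace.mk v ((α ^ m : 𝓞 K) : K) ≤ FinitePlace.mk v ((M : 𝓞 K) : K) := by
      apply loc_fp hM0
      intro r hr
      have h2 := ord_le v hM hd hr
      have h3 : r < 2 ^ r := Nat.lt_two_pow_self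
      have h4 : 2 ^ r ≤ (Ideal.absNorm v.asIdeal) ^ r := Nat.pow_le_pow_left hN2 r
      exact Ideal.pow_le_pow_right (show r ≤ m by omega) (Ideal.pow_mem_pow hα m)
    rw [hMcast] at h1
    rw [div_pow, map_div₀, map_pow (FinitePlace.mk v) (β : K), fp_unit v hβ, one_pow, div_one]
    have h5 : ((α ^ m : 𝓞 K) : K) = (α : K) ^ m := by push_cast; rfl
    rwa [h5] at h1
  · right
    have h1 : FinitePlace.mk v ((β ^ m - α ^ m : 𝓞 K) : K) ≤ FinitePlace.mk v ((M : 𝓞 K) : K) := by
      apply loc_fp hM0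
      intro r hr
      have h2 := ord_le v hM hd hr
      rcases Nat.eq_zero_or_pos r with hr0 | hr0
      · rw [hr0, pow_zero, Ideal.one_eq_top]
        trivial
      -- the quotient ring
      have hfin : Finite (𝓞 K ⧸ v.asIdeal ^ r) :=
        Ideal.finiteQuotientOfFreeOfNeBot _ (pow_ne_zero _ v.ne_bot)
      have hcard : Nat.card (𝓞 K ⧸ v.asIdeal ^ r) ≤ M ^ d := by
        have : Nat.card (𝓞 K ⧸ v.asIdeal ^ r) = Ideal.absNorm (v.asIdeal ^ r) := rfl
        rw [this, map_pow]
        exact h2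
      have hunit : ∀ γ : 𝓞 K, γ ∉ v.asIdeal →
          (Ideal.Quotient.mk (v.asIdeal ^ r) γ) ^ m = 1 := by
        intro γ hγ
        have hco : IsCoprime (Ideal.span {γ}) v.asIdeal := by
          rw [Ideal.isCoprime_iff_sup_eq]
          have hmax := v.isMaximal
          rcases hmax.out.2 (Ideal.span {γ} ⊔ v.asIdeal) (lt_of_le_of_ne le_sup_right (by
            intro h
            apply hγ
            rw [h]
            exact Ideal.mem_sup_left (Ideal.mem_span_singleton_self γ))) with h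
          exact h
        have hco2 : IsCoprime (Ideal.span {γ}) (v.asIdeal ^ r) := hco.pow_right
        rw [Ideal.isCoprime_iff_exists] at hco2
        obtain ⟨i, hi, j, hj, hij⟩ := hco2
        obtain ⟨y, hy⟩ := Ideal.mem_span_singleton'.1 hi
        have hu : IsUnit (Ideal.Quotient.mk (v.asIdeal ^ r) γ) := by
          refine IsUnit.of_mul_eq_one (Ideal.Quotient.mk (v.asIdeal ^ r) y) ?_
          rw [← map_mul, ← map_one (Ideal.Quotient.mk (v.asIdeal ^ r)), Ideal.Quotient.eq]
          have : γ * y - 1 = -j := by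
            rw [mul_comm γ y, hy]
            linear_combination hij
          rw [this]
          exact (v.asIdeal ^ r).neg_mem hj
        obtain ⟨u, hu⟩ := hu
        have h3 : orderOf u ≤ M ^ d := by
          refine (orderOf_le_card (x := u)).trans (le_trans ?_ hcard)
          exact Nat.card_le_card_of_injective Units.val Units.val_injective
        have h4 : orderOf u ∣ m :=
          (Nat.dvd_factorial (orderOf_pos u) h3).trans hm
        have h5 : u ^ m = 1 := orderOf_dvd_iff_pow_eq_one.1 h4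
        rw [← hu, ← Units.val_pow_eq_pow_val, h5, Units.val_one]
      rw [← Ideal.Quotient.eq_zero_iff_mem, map_sub, map_pow, map_pow, hunit α hα, hunit β hβ,
        sub_self]
    rw [hMcast] at h1
    have h6 : (1 : K) - ((α : K) / (β : K)) ^ m = ((β ^ m - α ^ m : 𝓞 K) : K) / (β : K) ^ m := by
      push_cast
      rw [div_pow]
      field_simp
    rw [h6, map_div₀, map_pow, fp_unit v hβ, one_pow, div_one]
    exact h1

end

theorem padic_pow (d M : ℕ) (hM : 1 ≤ M) : ∃ b : ℕ, 1 ≤ b ∧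
    ∀ (K : Type) [Field K] [NumberField K], Module.finrank ℚ K ≤ d → ∀ x : K, x ≠ 0 →
      ∀ m : ℕ, b ∣ m → 1 ≤ m → ∀ v : HeightOneSpectrum (𝓞 K),
        FinitePlace.mk v (x ^ m) ≤ FinitePlace.mk v (M : K) ∨
        FinitePlace.mk v (1 - x ^ m) ≤ FinitePlace.mk v (M : K) ∨
        FinitePlace.mk v (x ^ m)⁻¹ ≤ FinitePlace.mk v (M : K) := by
  refine ⟨(M ^ d).factorial, Nat.factorial_pos _, ?_⟩
  intro K _ _ hd x hx m hm hm1 v
  rcases le_or_gt (FinitePlace.mk v x) 1 with h | h
  · rcases case_le_one hM hd hm hm1 v x h with h1 | h1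
    · exact Or.inl h1
    · exact Or.inr (Or.inl h1)
  · have hx' : FinitePlace.mk v x⁻¹ ≤ 1 := by
      rw [map_inv₀]
      exact inv_le_one_of_one_le₀ h.le
    rcases case_le_one hM hd hm hm1 v x⁻¹ hx' with h1 | h1
    · right; right
      rwa [inv_pow] at h1
    · -- then `x` would be a unit, or `M` is a unit
      right; right
      have hp : 1 ≤ FinitePlace.mk v (x ^ m) := by
        rw [map_pow]
        exact one_le_pow₀ h.le
      by_cases hM1 : FinitePlace.mk v (M : K) < 1
      · exfalso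
        have h2 : FinitePlace.mk v (x⁻¹ ^ m) < 1 := by
          rw [map_pow, map_inv₀]
          exact pow_lt_one₀ (inv_nonneg.2 (apply_nonneg _ _)) (inv_lt_one_of_one_lt₀ h) (by omega)
        have h3 : (1 : ℝ) ≤ max (FinitePlace.mk v (1 - x⁻¹ ^ m)) (FinitePlace.mk v (x⁻¹ ^ m)) := by
          have := FinitePlace.add_le (FinitePlace.mk v) (1 - x⁻¹ ^ m) (x⁻¹ ^ m)
          rwa [sub_add_cancel, map_one] at this
        have h4 : max (FinitePlace.mk v (1 - x⁻¹ ^ m)) (FinitePlace.mk v (x⁻¹ ^ m)) < 1 :=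
          max_lt (lt_of_le_of_lt h1 hM1) h2
        linarith
      · push Not at hM1
        rw [map_inv₀]
        exact (inv_le_one_of_one_le₀ hp).trans hM1

end Pool.Agent.H34x.PL
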