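import Mathlib
import Pool.Agent.H34x.SL.Map

/-!
# Padé–Belyi maps near zero
-/

set_option autoImplicit false

namespace Pool.Agent.H34x.PL

open Polynomial NumberField IsDedekindDomain Height
open Pool.Agent.H34x.SL

theorem map_str (r0 r1 ri : ℕ) : ∃ c η0 : ℝ, ∃ Δ : ℕ, 0 ≤ c ∧ 0 < η0 ∧ 1 ≤ Δ ∧
    ∀ (K : Type) [Field K] [NumberField K] (x : K), x ≠ 0 → x ≠ 1 →
      ((r0 + r1 + ri + 1 : ℕ) : ℝ) * hh x ≤ c ∨
      ∃ y : K, y ≠ 0 ∧ y ≠ 1 ∧ ((r0 + r1 + ri + 1 : ℕ) : ℝ) * hh x ≤ hh y + c ∧
        cn y ≤ cn x + r0 * hh x + c ∧ cn (1 - y) ≤ cn (1 - x) + r1 * hh x + c ∧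
        cn y⁻¹ ≤ cn x⁻¹ + ri * hh x + c ∧
        (∀ w : InfinitePlace K, w x ≤ η0 → w y ≤ c * w x) ∧
        (∀ (v : HeightOneSpectrum (𝓞 K)) (M : ℕ), FinitePlace.mk v (M : K) < 1 →
          FinitePlace.mk v x ≤ FinitePlace.mk v ((M * Δ : ℕ) : K) →
          FinitePlace.mk v y ≤ FinitePlace.mk v (M : K)) := by
  obtain ⟨A, B, D, hA, hB, hD, hA0, hB0, hABD, hcop⟩ := pade r0 r1 ri
  set m0 := r1 + ri + 1 with hm0
  set m1 := r0 + ri + 1 with hm1
  set F := X ^ m0 * A with hF
  have hFd : F.natDegree = r0 + r1 + ri + 1 := by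
    rw [hF, natDegree_mul (pow_ne_zero _ X_ne_zero) hA0, natDegree_X_pow, hA]
    omega
  have hF0 : F ≠ 0 := mul_ne_zero (pow_ne_zero _ X_ne_zero) hA0
  obtain ⟨c, hc, hl⟩ := hh_lower hFd (by omega) hF0 hcop
  have lA := Real.log_nonneg (one_le_L1 A)
  have lB := Real.log_nonneg (one_le_L1 B)
  have lD := Real.log_nonneg (one_le_L1 D)
  have oA := one_le_L1 A
  have oD := one_le_L1 B.divX
  -- the constant coefficient of B
  have hb0 : B.coeff 0 ≠ 0 := by
    intro hb
    obtain ⟨u, w, huw⟩ := hcop
    have h1 := congrArg (Polynomial.eval 0) huw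
    rw [eval_add, eval_mul, eval_mul, eval_one, hF, Polynomial.map_mul, Polynomial.map_pow, map_X,
      eval_mul, eval_pow, eval_X, zero_pow (by omega), zero_mul, mul_zero, zero_add,
      ← coeff_zero_eq_eval_zero (B.map _), coeff_map, hb] at h1
    simp at h1
  have hBx : ∀ {K : Type} [Field K] [NumberField K] (x : K), aeval x B =
      x * aeval x B.divX + ((B.coeff 0 : ℤ) : K) := by
    intro K _ _ x
    conv_lhs => rw [← divX_mul_X_add B]
    rw [map_add, map_mul, aeval_X, aeval_C, mul_comm]
    simp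
  have hAbs : (1 : ℝ) ≤ |((B.coeff 0 : ℤ) : ℝ)| := by exact_mod_cast Int.one_le_abs hb0
  refine ⟨c + Real.log (L1 A) + Real.log (L1 B) + Real.log (L1 D) + 2 * L1 A,
    1 / (2 * L1 B.divX), (B.coeff 0).natAbs, by positivity, by positivity,
    Int.natAbs_pos.2 hb0, ?_⟩
  intro K _ _ x hx0 hx1
  have hlx := hl K x
  have eF : aeval x F = x ^ m0 * aeval x A := by rw [hF, map_mul, map_pow, aeval_X]
  have eB : aeval x F + (1 - x) ^ m1 * aeval x D = aeval x B := by
    rw [← hABD, map_add, map_mul (aeval x) ((1 - X) ^ m1) D, map_pow, map_sub, map_one, aeval_X]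
  have h1x : 1 - x ≠ 0 := sub_ne_zero.2 (Ne.symm hx1)
  by_cases hAx : aeval x A = 0
  · left
    rw [eF, hAx, mul_zero, zero_div] at hlx
    have : hh (0 : K) = 0 := by simp [hh]
    rw [this] at hlx
    linarith
  by_cases hBx0 : aeval x B = 0
  · left
    rw [hBx0, div_zero] at hlx
    have : hh (0 : K) = 0 := by simp [hh]
    rw [this] at hlx
    linarith
  by_cases hDx : aeval x D = 0
  · left
    rw [hDx, mul_zero, add_zero] at eB
    rw [eB, div_self hBx0] at hlx
    have : hh (1 : K) = 0 := by simp [hh]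
    rw [this] at hlx
    linarith
  right
  have hFx : aeval x F ≠ 0 := by
    rw [eF]
    exact mul_ne_zero (pow_ne_zero _ hx0) hAx
  have e1 : 1 - aeval x F / aeval x B = (1 - x) ^ m1 * aeval x D / aeval x B := by
    rw [← eB] at hBx0 ⊢
    field_simp
    ring
  have hyne : (1 - x) ^ m1 * aeval x D ≠ 0 := mul_ne_zero (pow_ne_zero _ h1x) hDx
  refine ⟨aeval x F / aeval x B, div_ne_zero hFx hBx0, ?_, by linarith, ?_, ?_, ?_, ?_, ?_⟩
  · intro h
    rw [h, sub_self] at e1
    exact (div_ne_zero hyne hBx0) e1.symm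
  · have h1 : cn (aeval x F / aeval x B) ≤ cn x + cn (aeval x A) := by
      apply cn_sub (div_ne_zero hFx hBx0) hx0 hAx
      intro v hv
      by_contra hcon
      push Not at hcon
      obtain ⟨g1, g2⟩ := hcon
      have hB1 : FinitePlace.mk v (aeval x B) ≤ (max 1 (FinitePlace.mk v x)) ^ ri :=
        na_aeval_le (na (FinitePlace.mk v)) B hB.le x
      rw [max_eq_right g1] at hB1
      have hB2 : FinitePlace.mk v (aeval x B) ≤ FinitePlace.mk v (aeval x F) := by
        rw [eF, map_mul, map_pow]
        calc FinitePlace.mk v (aeval x B) ≤ (FinitePlace.mk v x) ^ ri := hB1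
          _ ≤ (FinitePlace.mk v x) ^ m0 := pow_le_pow_right₀ g1 (by omega)
          _ ≤ (FinitePlace.mk v x) ^ m0 * FinitePlace.mk v (aeval x A) :=
              le_mul_of_one_le_right (pow_nonneg (apply_nonneg _ _) _) g2
      rw [map_div₀, div_lt_one (by
        rw [FinitePlace.pos_iff]; exact hBx0)] at hv
      linarith
    have h2 := cn_le_hh hAx
    have h3 := hh_upper A hA.le x
    linarith
  · have h1 : cn (1 - aeval x F / aeval x B) ≤ cn (1 - x) + cn (aeval x D) := by
      rw [e1]
      apply cn_sub (div_ne_zero hyne hBx0) h1x hDx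
      intro v hv
      by_contra hcon
      push Not at hcon
      obtain ⟨g1, g2⟩ := hcon
      have hB1 : FinitePlace.mk v (aeval x B) ≤ (max 1 (FinitePlace.mk v x)) ^ ri :=
        na_aeval_le (na (FinitePlace.mk v)) B hB.le x
      have g3 : FinitePlace.mk v x ≤ FinitePlace.mk v (1 - x) := by
        have h5 := FinitePlace.add_le (FinitePlace.mk v) 1 (-(1 - x))
        rw [map_neg_eq_map, map_one, max_eq_right g1] at h5
        have h6 : (1 : K) + -(1 - x) = x := by ring
        rwa [h6] at h5
      have hB2 : FinitePlace.mk v (aeval x B) ≤ FinitePlace.mk v ((1 - x) ^ m1 * aeval x D) := by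
        rw [map_mul, map_pow]
        calc FinitePlace.mk v (aeval x B) ≤ (max 1 (FinitePlace.mk v x)) ^ ri := hB1
          _ ≤ (FinitePlace.mk v (1 - x)) ^ ri :=
              pow_le_pow_left₀ (zero_le_one.trans (le_max_left _ _)) (max_le g1 g3) _
          _ ≤ (FinitePlace.mk v (1 - x)) ^ m1 := pow_le_pow_right₀ g1 (by omega)
          _ ≤ (FinitePlace.mk v (1 - x)) ^ m1 * FinitePlace.mk v (aeval x D) :=
              le_mul_of_one_le_right (pow_nonneg (apply_nonneg _ _) _) g2
      rw [map_div₀, div_lt_one (by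
        rw [FinitePlace.pos_iff]; exact hBx0)] at hv
      linarith
    have h2 := cn_le_hh hDx
    have h3 := hh_upper D hD x
    linarith
  · have h1 : cn (aeval x F / aeval x B)⁻¹ ≤ cn x⁻¹ + cn (aeval x B) := by
      apply cn_sub (inv_ne_zero (div_ne_zero hFx hBx0)) (inv_ne_zero hx0) hBx0
      intro v hv
      by_contra hcon
      push Not at hcon
      obtain ⟨g1, g2⟩ := hcon
      have g3 : FinitePlace.mk v x ≤ 1 := by
        rw [map_inv₀] at g1
        have hvx : 0 < FinitePlace.mk v x := FinitePlace.pos_iff.2 hx0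
        exact (one_le_inv₀ hvx).1 g1
      have hB2 : FinitePlace.mk v (aeval x F) ≤ FinitePlace.mk v (aeval x B) := by
        rw [eF, map_mul, map_pow]
        have h5 : FinitePlace.mk v (aeval x A) ≤ (max 1 (FinitePlace.mk v x)) ^ r0 :=
          na_aeval_le (na (FinitePlace.mk v)) A hA.le x
        rw [max_eq_left g3, one_pow] at h5
        calc (FinitePlace.mk v x) ^ m0 * FinitePlace.mk v (aeval x A) ≤ 1 * 1 :=
              mul_le_mul (pow_le_one₀ (apply_nonneg _ _) g3) h5 (apply_nonneg _ _) zero_le_one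
          _ ≤ _ := by rw [one_mul]; exact g2
      rw [inv_div, map_div₀, div_lt_one (by
        rw [FinitePlace.pos_iff]; exact hFx)] at hv
      linarith
    have h2 := cn_le_hh hBx0
    have h3 := hh_upper B hB.le x
    linarith
  · -- the archimedean positions
    intro w hw
    have hw0 := apply_nonneg w x
    have hη1 : 1 / (2 * L1 B.divX) ≤ 1 := by
      rw [div_le_one (by positivity)]
      linarith
    have hw1 : w x ≤ 1 := hw.trans hη1
    have hdx : w (aeval x B.divX) ≤ L1 B.divX := by
      have := aeval_le w.1 B.divX le_rfl x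
      have h2 : max 1 (w x) = 1 := max_eq_left hw1
      change w (aeval x B.divX) ≤ L1 B.divX * (max 1 (w x)) ^ B.divX.natDegree at this
      rwa [h2, one_pow, mul_one] at this
    have hax : w (aeval x A) ≤ L1 A := by
      have := aeval_le w.1 A le_rfl x
      have h2 : max 1 (w x) = 1 := max_eq_left hw1
      change w (aeval x A) ≤ L1 A * (max 1 (w x)) ^ A.natDegree at this
      rwa [h2, one_pow, mul_one] at this
    have hint : w ((B.coeff 0 : ℤ) : K) = |((B.coeff 0 : ℤ) : ℝ)| := by
      rw [← InfinitePlace.norm_embedding_eq, map_intCast, Complex.norm_intCast]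
    have hBlow : 1 / 2 ≤ w (aeval x B) := by
      have g1 : ((B.coeff 0 : ℤ) : K) = aeval x B + -(x * aeval x B.divX) := by
        rw [hBx x]
        ring
      have g2 : w ((B.coeff 0 : ℤ) : K) ≤ w (aeval x B) + w (x * aeval x B.divX) := by
        rw [g1]
        have := w.1.add_le (aeval x B) (-(x * aeval x B.divX))
        have h3 : w.1 (-(x * aeval x B.divX)) = w.1 (x * aeval x B.divX) := w.1.map_neg _
        rw [h3] at this
        exact this
      rw [hint, map_mul] at g2
      have g3 : w x * w (aeval x B.divX) ≤ 1 / 2 := by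
        calc w x * w (aeval x B.divX) ≤ 1 / (2 * L1 B.divX) * L1 B.divX :=
              mul_le_mul hw hdx (apply_nonneg _ _) (by positivity)
          _ = 1 / 2 := by
              field_simp
      linarith
    rw [map_div₀, eF, map_mul, map_pow, div_le_iff₀ (by linarith)]
    have g4 : w x ^ m0 ≤ w x := by
      have : w x ^ m0 ≤ w x ^ 1 := pow_le_pow_of_le_one hw0 hw1 (by omega)
      rwa [pow_one] at this
    calc w x ^ m0 * w (aeval x A) ≤ w x * L1 A :=
          mul_le_mul g4 hax (apply_nonneg _ _) hw0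
      _ = (2 * L1 A) * w x * (1 / 2) := by ring
      _ ≤ (c + Real.log (L1 A) + Real.log (L1 B) + Real.log (L1 D) + 2 * L1 A) * w x *
          w (aeval x B) := by
          apply mul_le_mul _ hBlow (by norm_num) (by positivity)
          apply mul_le_mul_of_nonneg_right _ hw0
          linarith
  · -- the finite places
    intro v M hM hx
    have hx0' := apply_nonneg (FinitePlace.mk v) x
    have hM0' := apply_nonneg (FinitePlace.mk v) (M : K)
    have hcast : (((M * (B.coeff 0).natAbs : ℕ)) : K) = (M : K) * ((B.coeff 0).natAbs : K) := by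
      push_cast
      ring
    have habs : FinitePlace.mk v (((B.coeff 0).natAbs : ℕ) : K) =
        FinitePlace.mk v ((B.coeff 0 : ℤ) : K) := by
      have h1 : (((B.coeff 0).natAbs : ℕ) : K) = ((|B.coeff 0| : ℤ) : K) := by
        rw [← Int.natCast_natAbs, Int.cast_natCast]
      rw [h1]
      rcases abs_choice (B.coeff 0) with h2 | h2
      · rw [h2]
      · rw [h2, Int.cast_neg, map_neg_eq_map]
    rw [hcast, map_mul, habs] at hx
    set t := FinitePlace.mk v ((B.coeff 0 : ℤ) : K) with ht
    have hbK : ((B.coeff 0 : ℤ) : K) ≠ 0 := by exact_mod_cast hb0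
    have ht0 : 0 < t := FinitePlace.pos_iff.2 hbK
    have ht1 : t ≤ 1 := by
      rw [← habs]
      exact (na (FinitePlace.mk v)).apply_natCast_le_one
    have hxt : FinitePlace.mk v x < t := by
      calc FinitePlace.mk v x ≤ FinitePlace.mk v (M : K) * t := hx
        _ < 1 * t := mul_lt_mul_of_pos_right hM ht0
        _ = t := one_mul t
    have hx1' : FinitePlace.mk v x ≤ 1 := hxt.le.trans ht1
    have hdx : FinitePlace.mk v (aeval x B.divX) ≤ 1 := by
      have := na_aeval_le (na (FinitePlace.mk v)) B.divX le_rfl x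
      change FinitePlace.mk v (aeval x B.divX) ≤ (max 1 (FinitePlace.mk v x)) ^ _ at this
      rwa [max_eq_left hx1', one_pow] at this
    have hax : FinitePlace.mk v (aeval x A) ≤ 1 := by
      have := na_aeval_le (na (FinitePlace.mk v)) A le_rfl x
      change FinitePlace.mk v (aeval x A) ≤ (max 1 (FinitePlace.mk v x)) ^ _ at this
      rwa [max_eq_left hx1', one_pow] at this
    have hBlow : t ≤ FinitePlace.mk v (aeval x B) := by
      have g1 := FinitePlace.add_le (FinitePlace.mk v) (aeval x B) (-(x * aeval x B.divX))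
      have g2 : aeval x B + -(x * aeval x B.divX) = ((B.coeff 0 : ℤ) : K) := by
        rw [hBx x]
        ring
      rw [g2, map_neg_eq_map, ← ht] at g1
      rcases le_max_iff.1 g1 with h2 | h2
      · exact h2
      · exfalso
        rw [map_mul] at h2
        have : FinitePlace.mk v x * FinitePlace.mk v (aeval x B.divX) ≤ FinitePlace.mk v x * 1 :=
          mul_le_mul_of_nonneg_left hdx hx0'
        linarith
    rw [map_div₀, eF, map_mul, map_pow, div_le_iff₀ (by linarith)]
    have g4 : FinitePlace.mk v x ^ m0 ≤ FinitePlace.mk v x := by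
      have : FinitePlace.mk v x ^ m0 ≤ FinitePlace.mk v x ^ 1 :=
        pow_le_pow_of_le_one hx0' hx1' (by omega)
      rwa [pow_one] at this
    calc FinitePlace.mk v x ^ m0 * FinitePlace.mk v (aeval x A) ≤ FinitePlace.mk v x * 1 :=
          mul_le_mul g4 hax (apply_nonneg _ _) hx0'
      _ ≤ FinitePlace.mk v (M : K) * t := by rw [mul_one]; exact hx
      _ ≤ FinitePlace.mk v (M : K) * FinitePlace.mk v (aeval x B) :=
          mul_le_mul_of_nonneg_left hBlow hM0'

end Pool.Agent.H34x.PL
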