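import Mathlib
import Pool.Agent.H34x.PL.JStep
import Pool.Agent.H34x.PL.Str
import Pool.Agent.H34x.PL.Padic

/-!
# The chain of the three maps
-/

set_option autoImplicit false

namespace Pool.Agent.H34x.PL

open Polynomial NumberField IsDedekindDomain Height
open Pool.Agent.H34x.SL

/-- The ratio `a / c` is small at all archimedean places and at all primes dividing `N`. -/
def Near (N : ℕ) (η : ℝ) (K : Type) [Field K] [NumberField K] (a c : K) : Prop :=
  (∀ w : InfinitePlace K, w a ≤ η * w c) ∧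
    ∀ v : HeightOneSpectrum (𝓞 K), (N : 𝓞 K) ∈ v.asIdeal →
      v.valuation K a ≤ v.valuation K (N : K) * v.valuation K c

theorem card_places (K : Type) [Field K] [NumberField K] :
    Fintype.card (InfinitePlace K) ≤ Module.finrank ℚ K := by
  have h1 := InfinitePlace.card_eq_nrRealPlaces_add_nrComplexPlaces K
  have h2 := InfinitePlace.card_add_two_mul_card_eq_rank K
  omega

theorem step1 (d M : ℕ) (hM : 1 ≤ M) (δ : ℝ) (hδ : 0 < δ) (hδ1 : δ < 1) :
    ∃ (E : ℕ) (c : ℝ), 0 ≤ c ∧ ∀ (K : Type) [Field K] [NumberField K], Module.finrank ℚ K ≤ d →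
      ∀ x : K, x ≠ 0 → ∃ m : ℕ, 1 ≤ m ∧ m ≤ E ∧
        (x ^ m ≠ 1 → tot (x ^ m) ≤ tot x + ((m : ℝ) - 1) * hh x + c) ∧
        (∀ w : InfinitePlace K, Near3 δ (w.embedding (x ^ m))) ∧
        ∀ v : HeightOneSpectrum (𝓞 K),
          FinitePlace.mk v (x ^ m) ≤ FinitePlace.mk v (M : K) ∨
          FinitePlace.mk v (1 - x ^ m) ≤ FinitePlace.mk v (M : K) ∨
          FinitePlace.mk v (x ^ m)⁻¹ ≤ FinitePlace.mk v (M : K) := by
  classical
  obtain ⟨b, hb, hpad⟩ := padic_pow d M hM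
  obtain ⟨E, hE⟩ := arch_scale d δ hδ hδ1 b hb
  have hL : ∀ m : ℕ, 0 ≤ Real.log (L1 (∑ i ∈ Finset.range m, (X : ℤ[X]) ^ i)) := fun m =>
    Real.log_nonneg (one_le_L1 _)
  refine ⟨E, ∑ m ∈ Finset.range (E + 1), Real.log (L1 (∑ i ∈ Finset.range m, (X : ℤ[X]) ^ i)),
    Finset.sum_nonneg fun m _ => hL m, ?_⟩
  intro K _ _ hd x hx
  obtain ⟨e⟩ : Nonempty (InfinitePlace K ↪ Fin d) := by
    apply Function.Embedding.nonempty_of_card_le
    rw [Fintype.card_fin]
    exact (card_places K).trans hd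
  set z : Fin d → ℂ := Function.extend e (fun w => w.embedding x) 1 with hz
  have hz1 : ∀ w, z (e w) = w.embedding x := fun w => by
    rw [hz, e.injective.extend_apply]
  have hz0 : ∀ i, z i ≠ 0 := by
    intro i
    by_cases h : ∃ w, e w = i
    · obtain ⟨w, rfl⟩ := h
      rw [hz1]
      exact (_root_.map_ne_zero _).2 hx
    · rw [hz, Function.extend_apply' _ _ _ h]
      exact one_ne_zero
  obtain ⟨m, hbm, hm1, hmE, hnear⟩ := hE z hz0
  refine ⟨m, hm1, hmE, ?_, ?_, hpad K hd x hx m hbm hm1⟩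
  · intro hxm
    have h1 := pow_step x hx hm1 hxm
    have h2 : Real.log (L1 (∑ i ∈ Finset.range m, (X : ℤ[X]) ^ i)) ≤
        ∑ m ∈ Finset.range (E + 1), Real.log (L1 (∑ i ∈ Finset.range m, (X : ℤ[X]) ^ i)) :=
      Finset.single_le_sum (f := fun m : ℕ =>
        Real.log (L1 (∑ i ∈ Finset.range m, (X : ℤ[X]) ^ i))) (fun m _ => hL m)
        (Finset.mem_range.2 (by omega))
    linarith
  · intro w
    have := hnear (e w)
    rwa [hz1, ← map_pow] at this

theorem chain (F : ∀ (K : Type) [Field K], Prop) (d : ℕ)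
    (hFd : ∀ (K : Type) [Field K] [NumberField K], F K → Module.finrank ℚ K ≤ d)
    (r0 r1 ri : ℕ) {α β γ η : ℝ}
    (hα : ((r0 + 1 : ℕ) : ℝ) / ((r0 + r1 + ri + 1 : ℕ) : ℝ) < α)
    (hβ : ((r1 + 1 : ℕ) : ℝ) / ((r0 + r1 + ri + 1 : ℕ) : ℝ) < β)
    (hγ : ((ri + 1 : ℕ) : ℝ) / ((r0 + r1 + ri + 1 : ℕ) : ℝ) < γ)
    (N : ℕ) (hN : 1 ≤ N) (hη : 0 < η) :
    ∃ (Dmax : ℕ) (c : ℝ), 0 ≤ c ∧ ∀ (K : Type) [Field K] [NumberField K], F K →
      ∀ x : K, x ≠ 0 → x ≠ 1 →
        hh x ≤ c ∨ ∃ D : ℕ, 1 ≤ D ∧ D ≤ Dmax ∧ ∃ y : K, y ≠ 0 ∧ y ≠ 1 ∧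
          (D : ℝ) * hh x ≤ hh y + c ∧ tot y ≤ tot x + ((D : ℝ) - 1) * hh x + c ∧
          (Shape 1 α β γ K (-y) (y - 1) 1 ∧ Near N η K (-y) 1) := by
  obtain ⟨cf, η0, Δ, hcf, hη0, hΔ, hf⟩ := map_str r0 r1 ri
  obtain ⟨cJ, hcJ, hJ⟩ := j_step
  set k : ℝ := ((r0 + r1 + ri + 1 : ℕ) : ℝ) with hk
  have hk1 : (1 : ℝ) ≤ k := by rw [hk]; exact_mod_cast Nat.le_add_left 1 _
  have hkpos : 0 < k := by linarith
  have hks : (r0 : ℝ) + r1 + ri = k - 1 := by rw [hk]; push_cast; ring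
  have l2 : 0 < Real.log 2 := Real.log_pos (by norm_num)
  set η1 : ℝ := min η0 (η / (cf + 1)) with hη1
  have hη1pos : 0 < η1 := lt_min hη0 (by positivity)
  set δ : ℝ := min (1 / 10) (η1 / 13) with hδ
  have hδpos : 0 < δ := lt_min (by norm_num) (by positivity)
  have hδ10 : δ ≤ 1 / 10 := min_le_left _ _
  have hδ13 : 13 * δ ^ 2 ≤ η1 := by
    have h1 : δ ≤ η1 / 13 := min_le_right _ _
    nlinarith
  have hNΔ : N * Δ ≠ 0 := by positivity
  have hM : 1 ≤ 2 * (N * Δ) := by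
    have : 0 < N * Δ := Nat.pos_of_ne_zero hNΔ
    omega
  obtain ⟨E, c1, hc1, hs1⟩ := step1 d (2 * (N * Δ)) hM δ hδpos (by linarith)
  obtain ⟨θ, hθ0, hθ1, hθ2, hθ3⟩ : ∃ θ : ℝ, 0 < θ ∧ ((r0 + 1 : ℕ) : ℝ) / k + θ ≤ α ∧
      ((r1 + 1 : ℕ) : ℝ) / k + θ ≤ β ∧ ((ri + 1 : ℕ) : ℝ) / k + θ ≤ γ := by
    refine ⟨min (α - ((r0 + 1 : ℕ) : ℝ) / k) (min (β - ((r1 + 1 : ℕ) : ℝ) / k)
      (γ - ((ri + 1 : ℕ) : ℝ) / k)), ?_, ?_, ?_, ?_⟩
    · exact lt_min (by linarith) (lt_min (by linarith) (by linarith))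
    · have := min_le_left (α - ((r0 + 1 : ℕ) : ℝ) / k) (min (β - ((r1 + 1 : ℕ) : ℝ) / k)
        (γ - ((ri + 1 : ℕ) : ℝ) / k))
      linarith
    · have := (min_le_right (α - ((r0 + 1 : ℕ) : ℝ) / k) (min (β - ((r1 + 1 : ℕ) : ℝ) / k)
        (γ - ((ri + 1 : ℕ) : ℝ) / k))).trans (min_le_left _ _)
      linarith
    · have := (min_le_right (α - ((r0 + 1 : ℕ) : ℝ) / k) (min (β - ((r1 + 1 : ℕ) : ℝ) / k)
        (γ - ((ri + 1 : ℕ) : ℝ) / k))).trans (min_le_right _ _)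
      linarith
  set c : ℝ := 3 * cf + k * cJ + cJ + c1 + 5 * cJ + (k - 1) * cJ +
    (2 * cf + cf * k + Real.log 2) / θ with hc
  have hk10 : 0 ≤ k - 1 := by linarith
  have hdiv : 0 ≤ (2 * cf + cf * k + Real.log 2) / θ := by positivity
  have hkJ : 0 ≤ k * cJ := by positivity
  have hkJ' : 0 ≤ (k - 1) * cJ := by positivity
  refine ⟨6 * (r0 + r1 + ri + 1) * E, c, by positivity, ?_⟩
  intro K _ _ hK x hx0 hx1
  have hhx := hh_nonneg x
  obtain ⟨m, hm1, hmE, htm, harch, hna⟩ := hs1 K (hFd K hK) x hx0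
  have hm1R : (1 : ℝ) ≤ m := by exact_mod_cast hm1
  have hpow := hh_pow x m
  have hxle : hh x ≤ hh (x ^ m) := by
    rw [hpow]
    nlinarith
  by_cases hy1 : x ^ m = 1
  · left
    rw [hy1, hh_one] at hxle
    linarith
  have ht1 := htm hy1
  have hxm0 : x ^ m ≠ 0 := pow_ne_zero _ hx0
  rcases hJ K (x ^ m) hxm0 hy1 with hsm | ⟨hJ0, hJ1, hJlow, hJup, hJtot⟩
  · left
    linarith
  rcases hf K (J (x ^ m)) hJ0 hJ1 with hsm | ⟨y, hy0, hyne, hylow, hn0, hn1, hni, hya, hyn⟩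
  · left
    have h1 : hh (J (x ^ m)) ≤ cf := by
      have := hh_nonneg (J (x ^ m))
      nlinarith
    have h2 : 0 ≤ hh (x ^ m) := hh_nonneg _
    linarith
  by_cases hsmall : hh x ≤ c
  · exact Or.inl hsmall
  push Not at hsmall
  right
  set h1 := hh (x ^ m) with hh1
  set h2 := hh (J (x ^ m)) with hh2
  have h1nn : 0 ≤ h1 := hh_nonneg _
  have h2nn : 0 ≤ h2 := hh_nonneg _
  have hDR : ((6 * (r0 + r1 + ri + 1) * m : ℕ) : ℝ) = 6 * k * m := by
    rw [hk]
    push_cast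
    ring
  have hDlow : 6 * k * m * hh x ≤ hh y + (cf + k * cJ) := by
    have e1 : 6 * k * m * hh x = k * (6 * h1) := by
      rw [hpow]
      ring
    rw [e1]
    have := mul_le_mul_of_nonneg_left hJlow hkpos.le
    linarith
  have hylarge : (2 * cf + cf * k + Real.log 2) / θ ≤ hh y := by
    have e1 : hh x ≤ 6 * k * m * hh x := by
      have : (1 : ℝ) ≤ 6 * k * m := by nlinarith
      nlinarith
    have : c < hh y + (cf + k * cJ) := by linarith
    rw [hc] at this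
    linarith
  have hylarge2 : 2 * cf + cf * k + Real.log 2 ≤ θ * hh y := by
    rw [div_le_iff₀ hθ0] at hylarge
    linarith
  refine ⟨6 * (r0 + r1 + ri + 1) * m, ?_, ?_, y, hy0, hyne, ?_, ?_, ?_, ?_⟩
  · have : 1 ≤ 6 * (r0 + r1 + ri + 1) := by omega
    exact Nat.one_le_iff_ne_zero.2 (Nat.mul_ne_zero (by omega) (by omega))
  · exact Nat.mul_le_mul_left _ hmE
  · rw [hDR]
    have : cf + k * cJ ≤ c := by
      rw [hc]
      linarith
    linarith
  · rw [hDR]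
    have hty : tot y ≤ tot (J (x ^ m)) + (k - 1) * h2 + 3 * cf := by
      unfold tot
      rw [← hks]
      nlinarith
    have h22 : (k - 1) * h2 ≤ (k - 1) * (6 * h1 + cJ) := mul_le_mul_of_nonneg_left hJup hk10
    have e1 : tot x + (6 * k * m - 1) * hh x = tot x + ((m : ℝ) - 1) * hh x + 5 * h1 +
        (k - 1) * (6 * h1) := by
      rw [hpow]
      ring
    rw [e1, hc]
    linarith
  · -- the shape
    have ha' : -y ≠ 0 := neg_ne_zero.2 hy0
    have hb' : y - 1 ≠ 0 := sub_ne_zero.2 hyne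
    have habc' : -y + (y - 1) + 1 = 0 := by ring
    have hyx : -(-y) / (1 : K) = y := by rw [neg_neg, div_one]
    obtain ⟨-, -, q1, q2, q3⟩ := logs ha' hb' one_ne_zero habc'
    have hH1 : hh y ≤ Real.log (height (-y) (y - 1) 1) := by
      have := hh_le_log_height (a := -y) (b := y - 1) (c := (1 : K))
      rwa [hyx] at this
    rw [hyx] at q1 q2 q3
    have n1 : cn (J (x ^ m)) ≤ h2 := cn_le_hh hJ0
    have n2 : cn (1 - J (x ^ m)) ≤ h2 + Real.log 2 :=
      (cn_le_hh (sub_ne_zero.2 (Ne.symm hJ1))).trans (hh_one_sub _)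
    have n3 : cn (J (x ^ m))⁻¹ ≤ h2 := by
      have := cn_le_hh (inv_ne_zero hJ0)
      rwa [hh_inv] at this
    have hhy := hh_nonneg y
    have key : ∀ (r : ℕ) (s : ℝ) (P n : ℝ), 0 < P → Real.log P = n →
        n ≤ ((r : ℝ) + 1) * h2 + Real.log 2 + cf → ((r + 1 : ℕ) : ℝ) / k + θ ≤ s →
        (r : ℝ) + 1 ≤ k → P ≤ 1 * height (-y) (y - 1) 1 ^ s := by
      intro r s P n hP hn hle hs hrk
      rw [one_mul]
      apply le_of_log hP (Real.rpow_pos_of_pos (height_pos _ _ _) _)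
      rw [Real.log_rpow (height_pos _ _ _), hn]
      have hr0 : 0 ≤ ((r + 1 : ℕ) : ℝ) / k := by positivity
      have hs0 : 0 ≤ s := by linarith
      have e1 : ((r : ℝ) + 1) * h2 ≤ (((r + 1 : ℕ) : ℝ) / k) * (hh y + cf) := by
        push_cast
        rw [div_mul_eq_mul_div, le_div_iff₀ hkpos]
        nlinarith [mul_le_mul_of_nonneg_left hylow (show (0 : ℝ) ≤ (r : ℝ) + 1 by positivity)]
      have e2 : (((r + 1 : ℕ) : ℝ) / k) * cf ≤ cf := by
        apply mul_le_of_le_one_left hcf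
        push_cast
        rwa [div_le_one hkpos]
      have e3 : 0 ≤ cf * k := by positivity
      have e4 : (((r + 1 : ℕ) : ℝ) / k + θ) * hh y ≤ s * hh y :=
        mul_le_mul_of_nonneg_right hs hhy
      have e5 : s * hh y ≤ s * Real.log (height (-y) (y - 1) 1) :=
        mul_le_mul_of_nonneg_left hH1 hs0
      nlinarith
    have r0k : (r0 : ℝ) + 1 ≤ k := by
      have : (0 : ℝ) ≤ r1 := Nat.cast_nonneg _
      have : (0 : ℝ) ≤ ri := Nat.cast_nonneg _
      linarith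
    have r1k : (r1 : ℝ) + 1 ≤ k := by
      have : (0 : ℝ) ≤ r0 := Nat.cast_nonneg _
      have : (0 : ℝ) ≤ ri := Nat.cast_nonneg _
      linarith
    have rik : (ri : ℝ) + 1 ≤ k := by
      have : (0 : ℝ) ≤ r0 := Nat.cast_nonneg _
      have : (0 : ℝ) ≤ r1 := Nat.cast_nonneg _
      linarith
    exact ⟨key r0 α _ _ (zero_lt_one.trans_le (one_le_part _ _ _)) q1 (by nlinarith) hθ1 r0k,
      key r1 β _ _ (zero_lt_one.trans_le (one_le_part _ _ _)) q2 (by nlinarith) hθ2 r1k,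
      key ri γ _ _ (zero_lt_one.trans_le (one_le_part _ _ _)) q3 (by nlinarith) hθ3 rik⟩
  · -- the positions
    refine ⟨?_, ?_⟩
    · intro w
      have g1 : w (J (x ^ m)) ≤ 13 * δ ^ 2 := J_arch w _ hδpos hδ10 (harch w)
      have g2 : w (J (x ^ m)) ≤ η1 := g1.trans hδ13
      have g3 := hya w (g2.trans (min_le_left _ _))
      have g4 : w (-y) = w y := w.1.map_neg y
      rw [map_one, mul_one, g4]
      have g5 : cf * w (J (x ^ m)) ≤ cf * (η / (cf + 1)) :=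
        mul_le_mul_of_nonneg_left (g2.trans (min_le_right _ _)) hcf
      have g6 : cf * (η / (cf + 1)) ≤ η := by
        rw [mul_div_assoc', div_le_iff₀ (by linarith)]
        nlinarith
      linarith
    · intro v hv
      have hNv : FinitePlace.mk v (N : K) < 1 := by
        by_contra hcon
        push Not at hcon
        have h3 : FinitePlace.mk v (1 : K) ≤ FinitePlace.mk v (N : K) := by rwa [map_one]
        rw [← mk_le_iff, map_one] at h3
        have h4 : v.valuation K (algebraMap (𝓞 K) K (N : 𝓞 K)) < 1 :=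
          (v.valuation_lt_one_iff_mem _).2 hv
        rw [map_natCast] at h4
        exact absurd h4 (not_lt.2 h3)
      have h2v : FinitePlace.mk v ((2 * (N * Δ) : ℕ) : K) < 1 := by
        have e1 : ((2 * (N * Δ) : ℕ) : K) = (N : K) * ((2 * Δ : ℕ) : K) := by
          push_cast
          ring
        rw [e1, map_mul]
        calc FinitePlace.mk v (N : K) * FinitePlace.mk v ((2 * Δ : ℕ) : K) ≤
              FinitePlace.mk v (N : K) * 1 :=
              mul_le_mul_of_nonneg_left (fp_nat_le v _) (apply_nonneg _ _)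
          _ < 1 := by rwa [mul_one]
      have g1 := J_na v (N * Δ) hNΔ (x ^ m) hxm0 h2v (hna v)
      have g2 := hyn v N hNv g1
      rw [map_one, mul_one, Valuation.map_neg, mk_le_iff]
      exact g2

end Pool.Agent.H34x.PL
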