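import Mathlib
import Pool.Agent.H34x.PL.Chain

/-!
# Localization of the uniform `abc` conjecture at all archimedean places, finitely many primes and
the three cusps
-/

set_option autoImplicit false

namespace Pool.Agent.H34x.PL

open NumberField IsDedekindDomain Height
open Pool.Agent.H34x.SL

theorem equiv (F : ∀ (K : Type) [Field K], Prop) (d : ℕ)
    (hFd : ∀ (K : Type) [Field K] [NumberField K], F K → Module.finrank ℚ K ≤ d)
    {α β γ η : ℝ} (hα : 0 < α) (hβ : 0 < β) (hγ : 0 < γ) (hs : 1 < α + β + γ)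
    (N : ℕ) (hN : 1 ≤ N) (hη : 0 < η)
    (H : ∀ ε : ℝ, 0 < ε → Holds F (fun K _ _ a b c => Shape 1 α β γ K a b c ∧ Near N η K a c)
      (1 + ε)) :
    ∀ ε : ℝ, 0 < ε → Holds F (fun _ _ _ _ _ _ => True) (1 + ε) := by
  -- the degree
  obtain ⟨k, hk⟩ := exists_nat_gt (max (max (2 / α) (2 / β)) (max (2 / γ) (6 / (α + β + γ - 1))))
  rw [max_lt_iff, max_lt_iff, max_lt_iff, div_lt_iff₀ hα, div_lt_iff₀ hβ, div_lt_iff₀ hγ,
    div_lt_iff₀ (by linarith)] at hk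
  obtain ⟨⟨hk1, hk2⟩, hk3, hk4⟩ := hk
  have hkpos : (0 : ℝ) < k := by
    by_contra hcon
    push Not at hcon
    nlinarith
  have hk0 : 0 < k := by exact_mod_cast hkpos
  -- the numbers r
  have hceil : ∀ t : ℝ, 2 < k * t → ∃ r : ℕ, ((r : ℝ) + 1 < k * t) ∧ k * t ≤ r + 2 := by
    intro t ht
    have h1 : 0 ≤ k * t - 2 := by linarith
    refine ⟨⌈k * t - 2⌉₊, ?_, ?_⟩
    · have := Nat.ceil_lt_add_one h1
      linarith
    · have := Nat.le_ceil (k * t - 2)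
      linarith
  obtain ⟨A, hA1, hA2⟩ := hceil α (by linarith)
  obtain ⟨B, hB1, hB2⟩ := hceil β (by linarith)
  obtain ⟨G, hG1, hG2⟩ := hceil γ (by linarith)
  have hsum : k - 1 ≤ A + B + G := by
    have h1 : (k : ℝ) - 1 ≤ A + B + G := by nlinarith
    have h2 : (k : ℝ) ≤ ((A + B + G + 1 : ℕ) : ℝ) := by push_cast; linarith
    have : k ≤ A + B + G + 1 := by exact_mod_cast h2
    omega
  obtain ⟨r0, r1, ri, hr0, hr1, hri, hr⟩ : ∃ r0 r1 ri : ℕ, r0 ≤ A ∧ r1 ≤ B ∧ ri ≤ G ∧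
      r0 + r1 + ri + 1 = k := by
    refine ⟨min A (k - 1), min B (k - 1 - min A (k - 1)),
      k - 1 - min A (k - 1) - min B (k - 1 - min A (k - 1)), by omega, by omega, by omega, by omega⟩
  have e0 : ((r0 + 1 : ℕ) : ℝ) / ((r0 + r1 + ri + 1 : ℕ) : ℝ) < α := by
    rw [hr, div_lt_iff₀ hkpos]
    push_cast
    have : (r0 : ℝ) ≤ A := by exact_mod_cast hr0
    linarith
  have e1 : ((r1 + 1 : ℕ) : ℝ) / ((r0 + r1 + ri + 1 : ℕ) : ℝ) < β := by
    rw [hr, div_lt_iff₀ hkpos]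
    push_cast
    have : (r1 : ℝ) ≤ B := by exact_mod_cast hr1
    linarith
  have e2 : ((ri + 1 : ℕ) : ℝ) / ((r0 + r1 + ri + 1 : ℕ) : ℝ) < γ := by
    rw [hr, div_lt_iff₀ hkpos]
    push_cast
    have : (ri : ℝ) ≤ G := by exact_mod_cast hri
    linarith
  obtain ⟨Dmax, c, hc, hmap⟩ := chain F d hFd r0 r1 ri e0 e1 e2 N hN hη
  exact deduce F (fun K _ _ a b c => Shape 1 α β γ K a b c ∧ Near N η K a c) Dmax c hc hmap H

end Pool.Agent.H34x.PL
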